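import Mathlib

/-!
# Salem numbers: conjugates of `τ + 1 / τ` (helper17)
-/

set_option autoImplicit false

namespace Pool.Agent.H17.Sal

open Finset Polynomial IntermediateField

/-- A Salem number: a real algebraic integer `τ > 1` whose other conjugates have absolute value at most one,
at least one of them lying on the unit circle. -/
def IsSalem (τ : ℝ) : Prop :=
  1 < τ ∧ IsIntegral ℤ τ ∧ (∀ z : ℂ, aeval z (minpoly ℤ τ) = 0 → z ≠ τ → ‖z‖ ≤ 1) ∧
    ∃ z : ℂ, aeval z (minpoly ℤ τ) = 0 ∧ ‖z‖ = 1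

lemma minQ {x : ℝ} (hx : IsIntegral ℤ x) (z : ℂ) : aeval z (minpoly ℚ x) = aeval z (minpoly ℤ x) := by
  rw [minpoly.isIntegrallyClosed_eq_field_fractions' ℚ hx, aeval_map_algebraMap]

lemma aeval_real (p : ℤ[X]) (x : ℝ) : aeval (x : ℂ) p = ((aeval x p : ℝ) : ℂ) := by
  rw [aeval_def, aeval_def, eval₂_eq_sum_range, eval₂_eq_sum_range]
  push_cast
  rfl

lemma aeval_self (x : ℝ) : aeval (x : ℂ) (minpoly ℤ x) = 0 := by
  rw [aeval_real, minpoly.aeval]; simp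

/-- complex conjugation -/
lemma aeval_conj (p : ℤ[X]) {z : ℂ} (hz : aeval z p = 0) : aeval (starRingEnd ℂ z) p = 0 := by
  have h := congrArg (starRingEnd ℂ) hz
  rw [map_zero] at h
  rw [← h, aeval_def, aeval_def, eval₂_eq_sum_range, eval₂_eq_sum_range, map_sum]
  refine sum_congr rfl fun i _ => ?_
  rw [map_mul, map_pow]
  congr 1
  simp

/-- the reverse polynomial -/
lemma aeval_reverse_inv (p : ℤ[X]) {z : ℂ} (hz : z ≠ 0) : aeval z⁻¹ p.reverse = 0 ↔ aeval z p = 0 := by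
  let _ : Invertible z := invertibleOfNonzero hz
  have h := eval₂_reverse_eq_zero_iff (algebraMap ℤ ℂ) z p
  rw [invOf_eq_inv] at h
  exact h

/-- if a conjugate of `τ` lies on the unit circle, then `1 / τ` is a conjugate of `τ` -/
lemma inv_root {τ : ℝ} (hτ : IsIntegral ℤ τ) {z : ℂ} (hz : aeval z (minpoly ℤ τ) = 0)
    (hz1 : ‖z‖ = 1) : ∀ w : ℂ, w ≠ 0 → aeval w (minpoly ℤ τ) = 0 → aeval w⁻¹ (minpoly ℤ τ) = 0 := by
  have hz0 : z ≠ 0 := by
    rintro rfl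
    simp at hz1
  have hzc : starRingEnd ℂ z = z⁻¹ := by
    rw [Complex.inv_def, Complex.normSq_eq_norm_sq, hz1]
    simp
  have h1 : aeval z⁻¹ (minpoly ℤ τ) = 0 := by
    rw [← hzc]
    exact aeval_conj _ hz
  have h2 : aeval z (minpoly ℤ τ).reverse = 0 := by
    have := (aeval_reverse_inv (minpoly ℤ τ) (inv_ne_zero hz0)).2 h1
    rwa [inv_inv] at this
  have hmon := minpoly.monic hτ
  have hzi : IsIntegral ℤ z := ⟨_, hmon, hz⟩
  have hdvd : minpoly ℤ z ∣ minpoly ℤ τ := minpoly.isIntegrallyClosed_dvd hzi hz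
  have heq : minpoly ℤ z = minpoly ℤ τ := by
    have hirr : Irreducible (minpoly ℤ τ) := minpoly.irreducible hτ
    rcases hirr.dvd_iff.1 hdvd with h | h
    · exact absurd h (minpoly.not_isUnit ℤ z)
    · exact eq_of_monic_of_associated (minpoly.monic hzi) hmon h.symm
  have h3 : minpoly ℤ τ ∣ (minpoly ℤ τ).reverse := by
    rw [← heq]
    rw [← heq] at h2
    exact minpoly.isIntegrallyClosed_dvd hzi h2
  intro w hw hw0
  obtain ⟨r, hr⟩ := h3
  have h4 : aeval w (minpoly ℤ τ).reverse = 0 := by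
    rw [hr, map_mul, hw0, zero_mul]
  have := (aeval_reverse_inv (minpoly ℤ τ) (inv_ne_zero hw)).1 (by rwa [inv_inv])
  exact this

/-- every conjugate of `τ + 1 / τ` comes from a conjugate of `τ` -/
lemma lift_root {τ : ℝ} (hτ : IsIntegral ℤ τ) (hη : IsIntegral ℤ (τ + τ⁻¹)) {w : ℂ}
    (hw : aeval w (minpoly ℤ (τ + τ⁻¹)) = 0) (h0 : τ ≠ 0) :
    ∃ z : ℂ, z ≠ 0 ∧ aeval z (minpoly ℤ τ) = 0 ∧ z + z⁻¹ = w := by
  have hτQ : IsIntegral ℚ τ := hτ.tower_top
  have hmem : τ ∈ adjoin ℚ {τ} := mem_adjoin_simple_self ℚ τ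
  have hx : τ + τ⁻¹ ∈ adjoin ℚ {τ} := add_mem hmem (inv_mem hmem)
  obtain ⟨φ, hφ⟩ := exists_algHom_adjoin_of_splits_of_aeval (F := ℚ) (E := ℝ) (K := ℂ) (S := {τ})
    (fun s hs => by
      rw [Set.mem_singleton_iff] at hs
      rw [hs]
      exact ⟨hτQ, IsAlgClosed.splits _⟩) hx (y := w) (by rw [minQ hη]; exact hw)
  refine ⟨φ ⟨τ, hmem⟩, ?_, ?_, ?_⟩
  · intro h
    have := (map_eq_zero φ).1 h
    apply h0
    have h1 := congrArg Subtype.val this
    simpa using h1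
  · rw [← minQ hτ]
    have h1 : aeval (φ ⟨τ, hmem⟩) (minpoly ℚ τ) = φ (aeval (⟨τ, hmem⟩ : adjoin ℚ {τ}) (minpoly ℚ τ)) :=
      aeval_algHom_apply φ _ _
    rw [h1]
    have h2 : aeval (⟨τ, hmem⟩ : adjoin ℚ {τ}) (minpoly ℚ τ) = 0 := by
      apply Subtype.val_injective
      have h3 := aeval_algHom_apply (adjoin ℚ {τ}).val (⟨τ, hmem⟩ : adjoin ℚ {τ}) (minpoly ℚ τ)
      rw [show (adjoin ℚ {τ}).val (⟨τ, hmem⟩ : adjoin ℚ {τ}) = τ from rfl, minpoly.aeval] at h3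
      exact h3.symm
    rw [h2, map_zero]
  · rw [← hφ, ← map_inv₀, ← map_add]
    rfl

/-- the image of a conjugate of `τ` -/
lemma push_root {τ : ℝ} (hτ : IsIntegral ℤ τ) (hη : IsIntegral ℤ (τ + τ⁻¹)) {z : ℂ}
    (hz : aeval z (minpoly ℤ τ) = 0) : aeval (z + z⁻¹) (minpoly ℤ (τ + τ⁻¹)) = 0 := by
  have hτQ : IsIntegral ℚ τ := hτ.tower_top
  have hmem : τ ∈ adjoin ℚ {τ} := mem_adjoin_simple_self ℚ τ
  have hx : τ + τ⁻¹ ∈ adjoin ℚ {τ} := add_mem hmem (inv_mem hmem)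
  obtain ⟨φ, hφ⟩ := exists_algHom_adjoin_of_splits_of_aeval (F := ℚ) (E := ℝ) (K := ℂ) (S := {τ})
    (fun s hs => by
      rw [Set.mem_singleton_iff] at hs
      rw [hs]
      exact ⟨hτQ, IsAlgClosed.splits _⟩) hmem (y := z) (by rw [minQ hτ]; exact hz)
  rw [← minQ hη]
  have h0 : z + z⁻¹ = φ ⟨τ + τ⁻¹, hx⟩ := by
    rw [← hφ, ← map_inv₀, ← map_add]
    rfl
  have h9 : aeval (φ ⟨τ + τ⁻¹, hx⟩) (minpoly ℚ (τ + τ⁻¹)) =
      φ (aeval (⟨τ + τ⁻¹, hx⟩ : adjoin ℚ {τ}) (minpoly ℚ (τ + τ⁻¹))) := aeval_algHom_apply φ _ _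
  rw [h0, h9]
  have h2 : aeval (⟨τ + τ⁻¹, hx⟩ : adjoin ℚ {τ}) (minpoly ℚ (τ + τ⁻¹)) = 0 := by
    apply Subtype.val_injective
    have h3 := aeval_algHom_apply (adjoin ℚ {τ}).val (⟨τ + τ⁻¹, hx⟩ : adjoin ℚ {τ}) (minpoly ℚ (τ + τ⁻¹))
    rw [show (adjoin ℚ {τ}).val (⟨τ + τ⁻¹, hx⟩ : adjoin ℚ {τ}) = τ + τ⁻¹ from rfl, minpoly.aeval] at h3
    exact h3.symm
  rw [h2, map_zero]

/-- the complex roots of the minimal polynomial of an algebraic integer -/
noncomputable def rts (x : ℝ) : Finset ℂ := ((minpoly ℤ x).map (Int.castRingHom ℂ)).roots.toFinset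

lemma mem_rts {x : ℝ} (hx : IsIntegral ℤ x) (z : ℂ) : z ∈ rts x ↔ aeval z (minpoly ℤ x) = 0 := by
  rw [rts, Multiset.mem_toFinset, mem_roots ((minpoly.monic hx).map _).ne_zero, IsRoot, eval_map]
  exact Iff.rfl

lemma card_rts {x : ℝ} (hx : IsIntegral ℤ x) : (rts x).card = (minpoly ℤ x).natDegree := by
  have hmon := minpoly.monic hx
  have hQ : minpoly ℚ x = (minpoly ℤ x).map (algebraMap ℤ ℚ) := minpoly.isIntegrallyClosed_eq_field_fractions' ℚ hx
  have hxQ : IsIntegral ℚ x := hx.tower_top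
  have hsep : (minpoly ℚ x).Separable := (minpoly.irreducible hxQ).separable
  have hPQ : (minpoly ℤ x).map (Int.castRingHom ℂ) = (minpoly ℚ x).map (algebraMap ℚ ℂ) := by
    rw [hQ, Polynomial.map_map]
    congr 1
  have hnd : ((minpoly ℤ x).map (Int.castRingHom ℂ)).roots.Nodup := by
    rw [hPQ]
    exact nodup_roots hsep.map
  rw [rts, Multiset.toFinset_card_of_nodup hnd, ← (IsAlgClosed.splits _).natDegree_eq_card_roots,
    hmon.natDegree_map]

/-- the degree of `τ` is twice the degree of `τ + 1 / τ` -/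
lemma deg_eq {τ : ℝ} (hτ1 : 1 < τ) (hτ : IsIntegral ℤ τ) (hη : IsIntegral ℤ (τ + τ⁻¹))
    (hinv : ∀ w : ℂ, w ≠ 0 → aeval w (minpoly ℤ τ) = 0 → aeval w⁻¹ (minpoly ℤ τ) = 0)
    (h1 : ∀ w : ℂ, aeval w (minpoly ℤ τ) = 0 → w ≠ 0 ∧ w⁻¹ ≠ w) :
    (minpoly ℤ τ).natDegree = 2 * (minpoly ℤ (τ + τ⁻¹)).natDegree := by
  classical
  rw [← card_rts hτ, ← card_rts hη]
  have hf : ∀ z ∈ rts τ, z + z⁻¹ ∈ rts (τ + τ⁻¹) := by
    intro z hz
    rw [mem_rts hτ] at hz
    rw [mem_rts hη]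
    exact push_root hτ hη hz
  have hfib : ∀ w ∈ rts (τ + τ⁻¹), ((rts τ).filter fun z => z + z⁻¹ = w).card = 2 := by
    intro w hw
    rw [mem_rts hη] at hw
    obtain ⟨z, g1, g2, g3⟩ := lift_root hτ hη hw (by linarith)
    obtain ⟨_, g4⟩ := h1 z g2
    have : (rts τ).filter (fun z => z + z⁻¹ = w) = {z, z⁻¹} := by
      ext u
      rw [mem_filter, mem_insert, mem_singleton, mem_rts hτ]
      constructor
      · rintro ⟨e1, e2⟩
        obtain ⟨e3, _⟩ := h1 u e1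
        have e4 : (u - z) * (u * z - 1) = 0 := by
          rw [← g3] at e2
          field_simp at e2
          linear_combination e2
        rcases mul_eq_zero.1 e4 with h | h
        · exact Or.inl (sub_eq_zero.1 h)
        · right
          exact eq_inv_of_mul_eq_one_left (sub_eq_zero.1 h)
      · rintro (rfl | rfl)
        · exact ⟨g2, g3⟩
        · refine ⟨hinv z g1 g2, ?_⟩
          rw [inv_inv, add_comm]
          exact g3
    rw [this, card_pair]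
    exact fun h => g4 h.symm
  apply le_antisymm
  · exact card_le_mul_card_image_of_maps_to hf 2 fun w hw => (hfib w hw).le
  · exact mul_card_image_le_card_of_maps_to hf 2 fun w hw => (hfib w hw).ge

/-- the conjugates are not `0`, `1`, `-1` -/
lemma no_self_inv {τ : ℝ} (hτ1 : 1 < τ) (hτ : IsIntegral ℤ τ) :
    ∀ w : ℂ, aeval w (minpoly ℤ τ) = 0 → w ≠ 0 ∧ w⁻¹ ≠ w := by
  have key : ∀ n : ℤ, |n| ≤ 1 → aeval ((n : ℤ) : ℂ) (minpoly ℤ τ) ≠ 0 := by
    intro n hn h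
    have h0 : (minpoly ℤ τ).eval n = 0 := by
      have h2 : aeval ((n : ℤ) : ℂ) (minpoly ℤ τ) = (((minpoly ℤ τ).eval n : ℤ) : ℂ) := by
        rw [aeval_def, eval₂_eq_sum_range, eval_eq_sum_range]
        push_cast
        rfl
      rw [h2] at h
      exact_mod_cast h
    obtain ⟨r, hr⟩ := dvd_iff_isRoot.2 (show IsRoot (minpoly ℤ τ) n from h0)
    have hirr : Irreducible (minpoly ℤ τ) := minpoly.irreducible hτ
    rcases hirr.isUnit_or_isUnit hr with h3 | h3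
    · exact not_isUnit_X_sub_C n h3
    · have hlin : aeval τ (X - C n : ℤ[X]) = 0 := by
        have h4 : aeval τ (minpoly ℤ τ) = 0 := minpoly.aeval ℤ τ
        rw [hr, map_mul] at h4
        rcases mul_eq_zero.1 h4 with h5 | h5
        · exact h5
        · exfalso
          obtain ⟨r', hr'⟩ := h3.exists_left_inv
          have h6 := congrArg (aeval τ) hr'
          rw [map_mul, h5, mul_zero, map_one] at h6
          exact zero_ne_one h6
      rw [map_sub, aeval_X, aeval_C] at hlin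
      simp only [algebraMap_int_eq, eq_intCast] at hlin
      have h5 : τ = n := by linarith
      have h6 : (n : ℝ) ≤ 1 := by exact_mod_cast (le_abs_self n).trans hn
      linarith
  intro w hw
  have h0 : w ≠ 0 := by
    rintro rfl
    exact key 0 (by norm_num) (by simpa using hw)
  refine ⟨h0, ?_⟩
  intro h
  have h1 : w * w = 1 := by
    calc w * w = w⁻¹ * w := by rw [h]
      _ = 1 := inv_mul_cancel₀ h0
  rcases mul_self_eq_one_iff.1 h1 with h2 | h2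
  · exact key 1 (by norm_num) (by rw [h2] at hw; simpa using hw)
  · exact key (-1) (by norm_num) (by rw [h2] at hw; simpa using hw)

/-- the structure of a Salem number -/
theorem IsSalem.struct {τ : ℝ} (h : IsSalem τ) :
    IsIntegral ℤ (τ + τ⁻¹) ∧ (minpoly ℤ τ).natDegree = 2 * (minpoly ℤ (τ + τ⁻¹)).natDegree ∧
      ∀ w : ℂ, aeval w (minpoly ℤ (τ + τ⁻¹)) = 0 → w ≠ ((τ + τ⁻¹ : ℝ) : ℂ) → ‖w‖ ≤ 2 := by
  obtain ⟨hτ1, hτ, hc, z₀, hz₀, hz₀1⟩ := h
  have hτ0 : 0 < τ := by linarith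
  have hinv := inv_root hτ hz₀ hz₀1
  have hτinv : aeval ((τ : ℂ)⁻¹) (minpoly ℤ τ) = 0 :=
    hinv _ (by exact_mod_cast hτ0.ne') (aeval_self τ)
  have hii : IsIntegral ℤ τ⁻¹ := by
    refine ⟨minpoly ℤ τ, minpoly.monic hτ, ?_⟩
    have h1 : aeval ((τ⁻¹ : ℝ) : ℂ) (minpoly ℤ τ) = 0 := by
      rw [Complex.ofReal_inv]; exact hτinv
    rw [aeval_real] at h1
    exact_mod_cast h1
  have hη : IsIntegral ℤ (τ + τ⁻¹) := hτ.add hii
  refine ⟨hη, deg_eq hτ1 hτ hη hinv (no_self_inv hτ1 hτ), ?_⟩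
  intro w hw hne
  obtain ⟨z, g1, g2, g3⟩ := lift_root hτ hη hw hτ0.ne'
  have e1 : z ≠ τ := by
    rintro rfl
    apply hne
    rw [← g3]
    push_cast
    rfl
  have e2 : z⁻¹ ≠ τ := by
    intro h
    apply hne
    rw [← g3, h]
    have : z = (τ : ℂ)⁻¹ := by rw [← h, inv_inv]
    rw [this]
    push_cast
    ring
  have e3 := hc z g2 e1
  have e4 := hc z⁻¹ (hinv z g1 g2) e2
  rw [← g3]
  calc ‖z + z⁻¹‖ ≤ ‖z‖ + ‖z⁻¹‖ := norm_add_le _ _
    _ ≤ 2 := by linarith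

end Pool.Agent.H17.Sal
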