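import Pool.Agent.H17.GS.Fib

/-!
# Salem numbers: the digits for almost all `n` (helper17)
-/

set_option autoImplicit false

namespace Pool.Agent.H17.GS

open Finset Filter Topology

/-- the solution of `t + 1 / t = w` near `w` -/
noncomputable def Sl (w : ℂ) : ℂ := w * (1 + (1 - 4 * w⁻¹ ^ 2) ^ (1 / 2 : ℂ)) / 2

lemma Sl_aux {w : ℂ} (hw : 8 ≤ ‖w‖) : 1 - 4 * w⁻¹ ^ 2 ∈ Complex.slitPlane ∧
    ‖1 - (1 - 4 * w⁻¹ ^ 2) ^ (1 / 2 : ℂ)‖ ≤ 4 / ‖w‖ ^ 2 ∧ w ≠ 0 := by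
  have hw0 : w ≠ 0 := by
    rintro rfl
    simp at hw
    linarith
  have hwn : 0 < ‖w‖ := by linarith
  have h1 : ‖4 * w⁻¹ ^ 2‖ = 4 / ‖w‖ ^ 2 := by
    rw [norm_mul, norm_pow, norm_inv, inv_pow, div_eq_mul_inv]
    norm_num
  have h2 : 4 / ‖w‖ ^ 2 ≤ 1 / 2 := by
    rw [div_le_div_iff₀ (by positivity) (by norm_num)]
    nlinarith
  obtain ⟨u, hu⟩ : ∃ u : ℂ, u = 4 * w⁻¹ ^ 2 := ⟨_, rfl⟩
  rw [← hu] at h1 ⊢
  have hre : 0 < (1 - u).re := by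
    rw [Complex.sub_re, Complex.one_re]
    have := (abs_le.1 (Complex.abs_re_le_norm u)).2
    linarith
  refine ⟨Or.inl hre, ?_, hw0⟩
  obtain ⟨s, hs⟩ : ∃ s : ℂ, s = (1 - u) ^ (1 / 2 : ℂ) := ⟨_, rfl⟩
  rw [← hs, ← h1]
  have hne : (1 - u) ≠ 0 := by
    intro h
    rw [h] at hre
    simp at hre
  have hs2 : s * s = 1 - u := by
    rw [hs, ← Complex.cpow_add _ _ hne]
    norm_num
  have hsre : 0 ≤ s.re := by
    have h3 : s = Complex.exp (Complex.log (1 - u) * (1 / 2 : ℂ)) := by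
      rw [hs, Complex.cpow_def_of_ne_zero hne]
    have h4 : (Complex.log (1 - u) * (1 / 2 : ℂ)).im = (1 - u).arg / 2 := by
      have : (1 / 2 : ℂ) = ((1 / 2 : ℝ) : ℂ) := by push_cast; rfl
      rw [this, Complex.mul_im, Complex.ofReal_re, Complex.ofReal_im, Complex.log_im]
      ring
    rw [h3, Complex.exp_re, h4]
    have h5 := Complex.arg_le_pi (1 - u)
    have h6 := Complex.neg_pi_lt_arg (1 - u)
    have h7 : 0 ≤ Real.cos ((1 - u).arg / 2) := Real.cos_nonneg_of_mem_Icc ⟨by linarith, by linarith⟩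
    have h8 := Real.exp_pos (Complex.log (1 - u) * (1 / 2 : ℂ)).re
    positivity
  have h9 : (1 - s) * (1 + s) = u := by linear_combination -hs2
  have h10 : 1 ≤ ‖1 + s‖ := by
    refine le_trans ?_ ((le_abs_self _).trans (Complex.abs_re_le_norm (1 + s)))
    rw [Complex.add_re, Complex.one_re]
    linarith
  calc ‖1 - s‖ ≤ ‖1 - s‖ * ‖1 + s‖ := le_mul_of_one_le_right (norm_nonneg _) h10
    _ = ‖u‖ := by rw [← norm_mul, h9]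

lemma Sl_near {w : ℂ} (hw : 8 ≤ ‖w‖) : ‖Sl w - w‖ ≤ 2 / ‖w‖ := by
  obtain ⟨_, h1, _⟩ := Sl_aux hw
  have hwn : 0 < ‖w‖ := by linarith
  have h2 : Sl w - w = -(w * (1 - (1 - 4 * w⁻¹ ^ 2) ^ (1 / 2 : ℂ)) / 2) := by
    rw [Sl]; ring
  rw [h2, norm_neg, norm_div, norm_mul]
  have h3 : ‖(2 : ℂ)‖ = 2 := by norm_num
  rw [h3]
  calc ‖w‖ * ‖1 - (1 - 4 * w⁻¹ ^ 2) ^ (1 / 2 : ℂ)‖ / 2 ≤ ‖w‖ * (4 / ‖w‖ ^ 2) / 2 := by gcongr
    _ = 2 / ‖w‖ := by field_simp; norm_num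

lemma Sl_diff {w : ℂ} (hw : 8 ≤ ‖w‖) : DifferentiableAt ℂ Sl w := by
  obtain ⟨h1, _, h3⟩ := Sl_aux hw
  have h4 : DifferentiableAt ℂ (fun w : ℂ => 1 - 4 * w⁻¹ ^ 2) w := by
    have : DifferentiableAt ℂ (fun w : ℂ => w⁻¹) w := differentiableAt_inv h3
    fun_prop
  have h5 : DifferentiableAt ℂ (fun w : ℂ => (1 - 4 * w⁻¹ ^ 2) ^ (1 / 2 : ℂ)) w :=
    h4.cpow_const h1
  unfold Sl
  fun_prop

lemma Sl_real {t : ℝ} (ht : 1 < t) (h8 : 8 ≤ t + t⁻¹) : Sl ((t + t⁻¹ : ℝ) : ℂ) = t := by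
  have ht0 : 0 < t := by linarith
  have hti : t⁻¹ < 1 := inv_lt_one_of_one_lt₀ ht
  obtain ⟨x, hx⟩ : ∃ x : ℝ, x = t + t⁻¹ := ⟨_, rfl⟩
  rw [← hx] at h8 ⊢
  have hx0 : 0 < x := by linarith
  have h1 : (1 : ℂ) - 4 * (x : ℂ)⁻¹ ^ 2 = (((t - t⁻¹) / x) ^ 2 : ℝ) := by
    have h2 : (1 : ℝ) - 4 * x⁻¹ ^ 2 = ((t - t⁻¹) / x) ^ 2 := by
      have h3 : x ^ 2 - 4 = (t - t⁻¹) ^ 2 := by
        rw [hx]
        have : t * t⁻¹ = 1 := mul_inv_cancel₀ ht0.ne'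
        nlinarith
      rw [div_pow, ← h3]
      field_simp
    rw [← h2]
    push_cast
    ring
  have h4 : ((((t - t⁻¹) / x) ^ 2 : ℝ) : ℂ) ^ (1 / 2 : ℂ) = (((t - t⁻¹) / x : ℝ) : ℂ) := by
    have h5 : (1 / 2 : ℂ) = ((1 / 2 : ℝ) : ℂ) := by push_cast; rfl
    have h6 : 0 ≤ (t - t⁻¹) / x := by
      have : 0 ≤ t - t⁻¹ := by linarith
      positivity
    rw [h5, ← Complex.ofReal_cpow (by positivity), ← Real.sqrt_eq_rpow, Real.sqrt_sq h6]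
  rw [Sl, h1, h4]
  have hxc : (x : ℂ) ≠ 0 := by exact_mod_cast hx0.ne'
  push_cast
  field_simp
  have : (x : ℂ) = t + (t : ℂ)⁻¹ := by rw [hx]; push_cast; rfl
  rw [this]
  have htc : (t : ℂ) ≠ 0 := by exact_mod_cast ht0.ne'
  field_simp
  ring

theorem near_invS {q : ℕ} {b : ℕ → ℝ} {A N : ℝ} (hN32 : 32 ≤ N) (hb : ∀ k ≤ q, |b k| ≤ A)
    (hA : 48 * ((q : ℝ) + 1) ^ 2 * A ≤ N ^ 2)
    (h0 : 32 * (q + 1) * A ^ 2 + 16 * (q + 1) * A * N + 8 * N ^ 2 ≤ |b 0| * N ^ (3 / 2 : ℝ)) :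
    ∃ B : ℂ → ℂ, Near N (b 0) (-1) (1 / 2) (fun z => B z - z) ∧
      ∀ x t y : ℝ, N / 4 ≤ x → N ≤ y → 1 < t → t + t⁻¹ = x → (x : ℂ) - psi q b x = y → B y = t := by
  have hN : 4 ≤ N := by linarith
  obtain ⟨B, hB1, hB2⟩ := exists_inv hN hb hA
  have hN0 : 0 < N := by linarith
  have hBn : ∀ z : ℂ, N / 3 ≤ z.re → N / 4 ≤ ‖B z‖ := fun z hz =>
    (hB1 z hz).1.trans ((le_abs_self _).trans (Complex.abs_re_le_norm _))
  refine ⟨fun z => Sl (B z), ⟨?_, ?_⟩, ?_⟩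
  · intro z hz
    have hz3 : N / 3 < z.re := by have := hz.1; linarith
    have h1 := hB2 z hz3
    have h2 : DifferentiableAt ℂ Sl (B z) := Sl_diff (by have := hBn z hz3.le; linarith)
    exact ((h2.comp z h1).sub differentiableAt_id).differentiableWithinAt
  · intro z hz
    have hz3 : N / 3 ≤ z.re := by have := hz.1; linarith
    obtain ⟨g1, g2, g3⟩ := hB1 z hz3
    have h1 := psi_main hN hb g1 hz.1 g3
    have h2 : z ^ ((-1 : ℝ) : ℂ) = z⁻¹ := by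
      rw [Complex.ofReal_neg, Complex.ofReal_one, Complex.cpow_neg_one]
    have hbn := hBn z hz3
    have h5 := Sl_near (w := B z) (by linarith)
    have h6 : 2 / ‖B z‖ ≤ 8 * N ^ 2 / N ^ 3 := by
      rw [div_le_div_iff₀ (by linarith) (by positivity)]
      have : N ^ 3 * N⁻¹ = N ^ 2 := by field_simp
      nlinarith [sq_nonneg N, mul_le_mul_of_nonneg_left hbn (sq_nonneg N)]
    have h3 : Sl (B z) - z - b 0 * z⁻¹ = (Sl (B z) - B z) + (psi q b (B z) - b 0 * z⁻¹) := by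
      linear_combination g2
    rw [h2]
    simp only
    rw [h3]
    refine (norm_add_le _ _).trans ((add_le_add (h5.trans h6) h1).trans ?_)
    rw [← add_div, div_le_iff₀ (by positivity)]
    have h4 : N ^ ((-1 : ℝ) - 1 / 2) * N ^ 3 = N ^ (3 / 2 : ℝ) := by
      rw [← Real.rpow_natCast N 3, ← Real.rpow_add hN0]
      norm_num
    calc 8 * N ^ 2 + (32 * (q + 1) * A ^ 2 + 16 * (q + 1) * A * N) ≤ |b 0| * N ^ (3 / 2 : ℝ) := by linarith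
      _ = |b 0| * N ^ ((-1 : ℝ) - 1 / 2) * N ^ 3 := by rw [mul_assoc, h4]
  · intro x t y hx hy ht htx hxy
    obtain ⟨g1, g2, _⟩ := hB1 y (by rw [Complex.ofReal_re]; linarith)
    have h1 := root_unique hN hb hA g1 (z := (x : ℂ)) (by rw [Complex.ofReal_re]; exact hx)
    rw [g2, hxy, sub_self, norm_zero, mul_zero] at h1
    have h2 := norm_le_zero_iff.1 h1
    have h3 : B y = x := by linear_combination h2
    simp only
    rw [h3, ← htx]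
    exact Sl_real ht (by rw [htx]; linarith)

/-- **Almost all `n`, the other coefficients fixed, with the map `τ + 1 / τ = x`** -/
theorem fibreS : ∃ γ : ℝ, 0 < γ ∧ γ ≤ 1 / 40 ∧ ∀ (q : ℕ) (C ε : ℝ), 1 ≤ C → 0 < ε → ∃ X₀ : ℕ,
    ∀ X : ℕ, X₀ ≤ X → ∀ b : ℕ → ℝ, (∀ k ≤ q, |b k| ≤ C * X) →
      X * Real.exp (-(Real.log X) ^ (1 - 4 * γ)) ≤ |b 0| → ∀ N : ℕ, (X : ℝ) ^ (19 / 20 : ℝ) ≤ N →
      (N : ℝ) ≤ C * X →
      (({n : ℕ | N < n ∧ n ≤ 2 * N ∧ ∃ x t : ℝ, (N : ℝ) / 4 ≤ x ∧ 1 < t ∧ t + t⁻¹ = x ∧ (x : ℂ) - psi q b x = n ∧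
        ∃ c u v : ℕ, 2 ≤ c ∧ (Real.log X) ^ (1 - γ / 2) ≤ (v : ℝ) - u ∧
          v * Real.log c ≤ (Real.log X) ^ (1 + γ / 2) ∧ ¬ EquiW t c u v ε}.ncard : ℕ) : ℝ) ≤
      N * Real.exp (-(Real.log N) ^ (3 / 5 : ℝ)) := by
  obtain ⟨γ, hγ0, hγ1, hgs⟩ := gs
  refine ⟨γ, hγ0, hγ1, ?_⟩
  intro q C ε hC hε
  obtain ⟨N₁, hN₁⟩ := hgs (-1) (fun m h => by
    have : (0 : ℝ) ≤ m := Nat.cast_nonneg m
    linarith) (1 / 2) (by norm_num) ε hε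
  have hC0 : 0 < C := by linarith
  have hlog : Tendsto (fun N : ℕ => Real.log N) atTop atTop :=
    Real.tendsto_log_atTop.comp tendsto_natCast_atTop_atTop
  have hNr : Tendsto (fun N : ℕ => (N : ℝ)) atTop atTop := tendsto_natCast_atTop_atTop
  -- in terms of `X`
  have ev0 : ∀ᶠ x : ℝ in atTop, ((N₁ : ℝ) + 32) * x ^ (0 : ℝ) ≤ x ^ (19 / 20 : ℝ) :=
    ev_pow _ _ _ (by norm_num)
  have ev1 : ∀ᶠ x : ℝ in atTop, (48 * ((q : ℝ) + 1) ^ 2 * C) * x ^ (1 : ℝ) ≤ x ^ (19 / 10 : ℝ) :=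
    ev_pow _ _ _ (by norm_num)
  have ev2 : ∀ᶠ x : ℝ in atTop, (2 * (32 * ((q : ℝ) + 1) * C ^ 2 + 16 * (q + 1) * C * C)) * x ^ (2 : ℝ) ≤
      x ^ (9 / 10 + 3 / 2 * (19 / 20) : ℝ) := ev_pow _ _ _ (by norm_num)
  have ev2' : ∀ᶠ x : ℝ in atTop, (16 * C) * x ^ (1 / 2 : ℝ) ≤ x ^ (9 / 10 : ℝ) := ev_pow _ _ _ (by norm_num)
  -- in terms of `y = log X`
  have ev3 : ∀ᶠ y : ℝ in atTop, 10 * y ^ (1 - 4 * γ) ≤ y ^ (1 : ℝ) := ev_pow _ _ _ (by linarith)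
  have ev4 : ∀ᶠ y : ℝ in atTop, 4 * y ^ (1 - 4 * γ) ≤ y ^ (1 - 3 * γ) := ev_pow _ _ _ (by linarith)
  have ev5 : ∀ᶠ y : ℝ in atTop, 4 * Real.log C * y ^ (0 : ℝ) ≤ y ^ (1 - 3 * γ) := ev_pow _ _ _ (by linarith)
  have ev6 : ∀ᶠ y : ℝ in atTop, 2 * y ^ (1 - γ) ≤ y ^ (1 - γ / 2) := ev_pow _ _ _ (by linarith)
  have ev7 : ∀ᶠ y : ℝ in atTop, 4 * y ^ (1 + γ / 2) ≤ y ^ (1 + γ) := ev_pow _ _ _ (by linarith)
  have ev8 : ∀ᶠ y : ℝ in atTop, Real.log C * y ^ (0 : ℝ) ≤ y ^ (1 : ℝ) := ev_pow _ _ _ (by norm_num)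
  obtain ⟨X₀, hX₀⟩ := eventually_atTop.1 ((hNr.eventually ((ev0.and ev1).and (ev2.and ev2'))).and
    ((hlog.eventually (((ev3.and ev4).and (ev5.and ev6)).and ((ev7.and ev8).and
      (eventually_ge_atTop 10)))).and (eventually_ge_atTop 2)))
  refine ⟨X₀, ?_⟩
  intro X hX b hb hb0 N hN1 hN2
  obtain ⟨⟨⟨q0, q1⟩, q2, q2'⟩, ⟨⟨⟨q3, q4⟩, q5, q6⟩, ⟨q7, q8⟩, q9⟩, q10⟩ := hX₀ X hX
  have hX0 : (0 : ℝ) < X := by exact_mod_cast (by omega : 0 < X)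
  have hX1 : (1 : ℝ) ≤ X := by exact_mod_cast (by omega : 1 ≤ X)
  set y : ℝ := Real.log X with hy
  have hXexp : (X : ℝ) = Real.exp y := by rw [hy, Real.exp_log hX0]
  have hy0 : 0 < y := by linarith
  have hy1 : 1 ≤ y := by linarith
  rw [Real.rpow_zero, mul_one] at q0 q5 q8
  rw [Real.rpow_one] at q1 q3 q8
  have hNN : (N₁ : ℝ) + 32 ≤ N := q0.trans hN1
  have hNN₁ : N₁ ≤ N := by
    have : (N₁ : ℝ) ≤ N := by linarith
    exact_mod_cast this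
  have hN32 : (32 : ℝ) ≤ N := by
    have : (0 : ℝ) ≤ N₁ := Nat.cast_nonneg _
    linarith
  have hN4 : (4 : ℝ) ≤ N := by linarith
  have hN0 : (0 : ℝ) < N := by linarith
  -- `z = log N`
  set z : ℝ := Real.log N with hz
  have hz1 : 19 / 20 * y ≤ z := by
    have h1 := Real.log_le_log (by positivity) hN1
    rwa [Real.log_rpow hX0] at h1
  have hz2 : z ≤ 2 * y := by
    have h1 := Real.log_le_log hN0 hN2
    rw [Real.log_mul hC0.ne' hX0.ne'] at h1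
    linarith
  have hz0 : 0 < z := by linarith
  have hb0' : (X : ℝ) ^ (9 / 10 : ℝ) ≤ |b 0| := by
    refine le_trans ?_ hb0
    rw [hXexp, ← Real.exp_mul, ← Real.exp_add]
    apply Real.exp_le_exp.2
    linarith
  have hb00 : 0 < |b 0| := lt_of_lt_of_le (by positivity) hb0'
  have hbne : b 0 ≠ 0 := abs_pos.1 hb00
  have hcond1 : 48 * ((q : ℝ) + 1) ^ 2 * (C * X) ≤ (N : ℝ) ^ 2 := by
    calc 48 * ((q : ℝ) + 1) ^ 2 * (C * X) = 48 * ((q : ℝ) + 1) ^ 2 * C * X := by ring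
      _ ≤ (X : ℝ) ^ (19 / 10 : ℝ) := q1
      _ = ((X : ℝ) ^ (19 / 20 : ℝ)) ^ 2 := by
          rw [← Real.rpow_natCast, ← Real.rpow_mul hX0.le]; norm_num
      _ ≤ (N : ℝ) ^ 2 := pow_le_pow_left₀ (by positivity) hN1 2
  have hcond2 : 32 * ((q : ℝ) + 1) * (C * X) ^ 2 + 16 * (q + 1) * (C * X) * N + 8 * (N : ℝ) ^ 2 ≤
      |b 0| * (N : ℝ) ^ (3 / 2 : ℝ) := by
    have e1 : 2 * (32 * ((q : ℝ) + 1) * (C * X) ^ 2 + 16 * (q + 1) * (C * X) * N) ≤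
        (2 * (32 * ((q : ℝ) + 1) * C ^ 2 + 16 * (q + 1) * C * C)) * (X : ℝ) ^ (2 : ℝ) := by
      have e2 : 16 * ((q : ℝ) + 1) * (C * X) * N ≤ 16 * (q + 1) * (C * X) * (C * X) := by gcongr
      have e3 : (X : ℝ) ^ (2 : ℝ) = (X : ℝ) ^ 2 := by norm_cast
      rw [e3]
      nlinarith
    have e4 : (X : ℝ) ^ (9 / 10 + 3 / 2 * (19 / 20) : ℝ) ≤ |b 0| * (N : ℝ) ^ (3 / 2 : ℝ) := by
      rw [Real.rpow_add hX0]
      have e4 : (X : ℝ) ^ (3 / 2 * (19 / 20) : ℝ) ≤ (N : ℝ) ^ (3 / 2 : ℝ) := by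
        rw [mul_comm, Real.rpow_mul hX0.le]
        exact Real.rpow_le_rpow (by positivity) hN1 (by norm_num)
      gcongr
    have e5 : 2 * (8 * (N : ℝ) ^ 2) ≤ |b 0| * (N : ℝ) ^ (3 / 2 : ℝ) := by
      have f1 : (N : ℝ) ^ 2 = (N : ℝ) ^ (1 / 2 : ℝ) * (N : ℝ) ^ (3 / 2 : ℝ) := by
        rw [← Real.rpow_add hN0]; norm_num
      have f2 : (N : ℝ) ^ (1 / 2 : ℝ) ≤ C * (X : ℝ) ^ (1 / 2 : ℝ) := by
        calc (N : ℝ) ^ (1 / 2 : ℝ) ≤ (C * X) ^ (1 / 2 : ℝ) := Real.rpow_le_rpow hN0.le hN2 (by norm_num)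
          _ = C ^ (1 / 2 : ℝ) * (X : ℝ) ^ (1 / 2 : ℝ) := Real.mul_rpow hC0.le hX0.le
          _ ≤ C ^ (1 : ℝ) * (X : ℝ) ^ (1 / 2 : ℝ) := by
              gcongr
              norm_num
          _ = _ := by rw [Real.rpow_one]
      have f3 : 16 * (N : ℝ) ^ (1 / 2 : ℝ) ≤ |b 0| := by
        calc 16 * (N : ℝ) ^ (1 / 2 : ℝ) ≤ 16 * (C * (X : ℝ) ^ (1 / 2 : ℝ)) := by gcongr
          _ = 16 * C * (X : ℝ) ^ (1 / 2 : ℝ) := by ring
          _ ≤ (X : ℝ) ^ (9 / 10 : ℝ) := q2'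
          _ ≤ |b 0| := hb0'
      rw [f1]
      calc 2 * (8 * ((N : ℝ) ^ (1 / 2 : ℝ) * (N : ℝ) ^ (3 / 2 : ℝ))) =
            (16 * (N : ℝ) ^ (1 / 2 : ℝ)) * (N : ℝ) ^ (3 / 2 : ℝ) := by ring
        _ ≤ _ := by gcongr
    linarith [e1.trans (q2.trans e4)]
  obtain ⟨B, hB1, hB2⟩ := near_invS hN32 hb hcond1 hcond2
  have hupper : |b 0| * (N : ℝ) ^ (-1 : ℝ) ≤ Real.exp (z ^ (1 + γ)) := by
    have e1 : (N : ℝ) ^ (-1 : ℝ) ≤ 1 :=
      Real.rpow_le_one_of_one_le_of_nonpos (by linarith) (by norm_num)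
    have e2 : |b 0| ≤ Real.exp (2 * y) := by
      refine (hb 0 (Nat.zero_le _)).trans ?_
      rw [← Real.exp_log hC0, hXexp, ← Real.exp_add]
      apply Real.exp_le_exp.2
      linarith
    have e3 : 2 * y ≤ z ^ (1 + γ) := by
      have f1 : y ^ (1 + γ / 2) ≥ y := by
        calc y = y ^ (1 : ℝ) := (Real.rpow_one _).symm
          _ ≤ _ := Real.rpow_le_rpow_of_exponent_le hy1 (by linarith)
      have f2 : (y / 2) ^ (1 + γ) ≤ z ^ (1 + γ) := Real.rpow_le_rpow (by positivity) (by linarith) (by linarith)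
      have f3 : (y / 2) ^ (1 + γ) ≥ y ^ (1 + γ) / 2 ^ (2 : ℝ) := by
        rw [Real.div_rpow hy0.le (by norm_num)]
        gcongr
        · norm_num
        · linarith
      have f4 : (2 : ℝ) ^ (2 : ℝ) = 4 := by norm_num
      rw [f4] at f3
      have f5 : 2 * y ^ (γ / 2) * y ≤ y ^ (1 + γ) / 4 * 2 := by
        have : y ^ (γ / 2) * y = y ^ (1 + γ / 2) := by
          rw [Real.rpow_add hy0, Real.rpow_one]; ring
        nlinarith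
      have f6 : (4 : ℝ) * y ^ (1 + γ / 2) ≤ y ^ (1 + γ) := q7
      have f7 : 1 ≤ y ^ (γ / 2) := Real.one_le_rpow hy1 (by positivity)
      -- `y ^ (1 + γ) ≥ 16 y`
      have f8 : 16 * y ≤ y ^ (1 + γ) := by
        have g1 : y ^ (1 + γ) = y ^ (1 + γ / 2) * y ^ (γ / 2) := by
          rw [← Real.rpow_add hy0]; congr 1; ring
        have g2 : 4 ≤ y ^ (γ / 2) := by
          have g3 : 4 * y ^ (1 + γ / 2) ≤ y ^ (γ / 2) * y ^ (1 + γ / 2) := by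
            rw [mul_comm (y ^ (γ / 2)), ← g1]; exact f6
          exact le_of_mul_le_mul_right g3 (Real.rpow_pos_of_pos hy0 _)
        have g4 : 4 * y ≤ y ^ (1 + γ / 2) := by
          have : y ^ (1 + γ / 2) = y * y ^ (γ / 2) := by rw [Real.rpow_add hy0, Real.rpow_one]
          rw [this]; nlinarith
        rw [g1]; nlinarith
      linarith
    calc |b 0| * (N : ℝ) ^ (-1 : ℝ) ≤ Real.exp (2 * y) * 1 := by gcongr
      _ ≤ Real.exp (z ^ (1 + γ)) := by rw [mul_one]; exact Real.exp_le_exp.2 e3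
  have hmain := hN₁ N (b 0) 0 (fun z => B z - z) hNN₁ hbne hB1 hupper
  refine le_trans ?_ hmain
  refine Nat.cast_le.2 (Set.ncard_le_ncard ?_ ((Set.finite_Icc 0 (2 * N)).subset
    fun n hn => ⟨Nat.zero_le _, hn.2.1⟩))
  rintro n ⟨a1, a2, x, t, a3, t1, t2, a4, c, u, v, a5, a6, a7, a8⟩
  have hnN : (N : ℝ) ≤ n := by exact_mod_cast a1.le
  have hBn : B ((n : ℝ) : ℂ) = t := hB2 x t n a3 hnN t1 t2 (by rw [a4]; push_cast; rfl)
  have hc2 : (2 : ℝ) ≤ c := by exact_mod_cast a5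
  refine ⟨a1, a2, c, u, v, a5, ?_, ?_, ?_, ?_⟩
  · refine le_trans ?_ a6
    refine le_trans ?_ q6
    calc z ^ (1 - γ) ≤ (2 * y) ^ (1 - γ) := Real.rpow_le_rpow hz0.le hz2 (by linarith)
      _ = 2 ^ (1 - γ) * y ^ (1 - γ) := Real.mul_rpow (by norm_num) hy0.le
      _ ≤ 2 ^ (1 : ℝ) * y ^ (1 - γ) := by
          gcongr
          · norm_num
          · linarith
      _ = 2 * y ^ (1 - γ) := by rw [Real.rpow_one]
  · refine a7.trans ?_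
    have f2 : (y / 2) ^ (1 + γ) ≤ z ^ (1 + γ) := Real.rpow_le_rpow (by positivity) (by linarith) (by linarith)
    have f3 : y ^ (1 + γ) / 2 ^ (2 : ℝ) ≤ (y / 2) ^ (1 + γ) := by
      rw [Real.div_rpow hy0.le (by norm_num)]
      gcongr
      · norm_num
      · linarith
    have f4 : (2 : ℝ) ^ (2 : ℝ) = 4 := by norm_num
    rw [f4] at f3
    linarith
  · have e1 : Real.exp (-y ^ (1 - 4 * γ)) ≤ |b 0| / X := by
      rw [le_div_iff₀ hX0]; linarith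
    have e2 : (N : ℝ) ^ (-1 : ℝ) = (N : ℝ)⁻¹ := Real.rpow_neg_one _
    have e3 : |b 0| * (N : ℝ) ^ (-1 : ℝ) ≥ Real.exp (-y ^ (1 - 4 * γ)) * Real.exp (-Real.log C) := by
      rw [e2]
      have e4 : (C * X)⁻¹ ≤ (N : ℝ)⁻¹ := inv_anti₀ hN0 hN2
      calc |b 0| * (N : ℝ)⁻¹ ≥ |b 0| * (C * X)⁻¹ := by gcongr
        _ = |b 0| / X * C⁻¹ := by field_simp
        _ ≥ Real.exp (-y ^ (1 - 4 * γ)) * C⁻¹ := by gcongr
        _ = _ := by rw [Real.exp_neg (Real.log C), Real.exp_log hC0]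
    have e5 : Real.exp (-z ^ (1 - 3 * γ)) ≤ Real.exp (-y ^ (1 - 4 * γ)) * Real.exp (-Real.log C) := by
      rw [← Real.exp_add]
      apply Real.exp_le_exp.2
      have f2 : (y / 2) ^ (1 - 3 * γ) ≤ z ^ (1 - 3 * γ) := Real.rpow_le_rpow (by positivity) (by linarith) (by linarith)
      have f3 : y ^ (1 - 3 * γ) / 2 ^ (1 : ℝ) ≤ (y / 2) ^ (1 - 3 * γ) := by
        rw [Real.div_rpow hy0.le (by norm_num)]
        gcongr
        · norm_num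
        · linarith
      rw [Real.rpow_one] at f3
      linarith
    calc Real.exp (-z ^ (1 - 3 * γ)) ≤ 1 * (|b 0| * (N : ℝ) ^ (-1 : ℝ)) := by rw [one_mul]; exact e5.trans e3
      _ ≤ (c : ℝ) ^ u * (|b 0| * (N : ℝ) ^ (-1 : ℝ)) := by
          gcongr
          exact one_le_pow₀ (by linarith)
  · have h1 : t = ((n : ℤ) : ℝ) + (((fun z => B z - z) ((n : ℝ) : ℂ)).re + 0) := by
      simp only
      rw [hBn, Complex.sub_re, Complex.ofReal_re, Complex.ofReal_re]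
      push_cast
      ring
    rw [h1, equiW_add_int] at a8
    exact a8

end Pool.Agent.H17.GS
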