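import Pool.Agent.H17.Sal.A
import Pool.Agent.H17.Sal.B
import Pool.Agent.H17.GS.PisM

/-!
# Salem numbers: the upper bound for the number of bad ones (helper17)
-/

set_option autoImplicit false

namespace Pool.Agent.H17.Sal

open Finset Filter Topology Polynomial
open Pool.Agent.H17.GS (EquiW ev_pow psi psi_eq coef_bd simple_root other_roots Phi minpoly_ext fibreS count)

/-- the Salem numbers of degree `d` which are at most `X` -/
def Sal (d X : ℕ) : Set ℝ := {τ | IsSalem τ ∧ (minpoly ℤ τ).natDegree = d ∧ τ ≤ X}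

lemma eta_gt {τ : ℝ} (h : 1 < τ) : 2 < τ + τ⁻¹ := by
  have h0 : 0 < τ := by linarith
  have h1 : τ * τ⁻¹ = 1 := mul_inv_cancel₀ h0.ne'
  have h2 : 0 < τ⁻¹ := by positivity
  have h3 : 0 < (τ - 1) ^ 2 := by
    have : 0 < τ - 1 := by linarith
    positivity
  have h4 : (τ - 1) ^ 2 * τ⁻¹ = τ + τ⁻¹ - 2 := by
    have : (τ - 1) ^ 2 * τ⁻¹ = τ * (τ * τ⁻¹) - 2 * (τ * τ⁻¹) + τ⁻¹ := by ring
    rw [this, h1]; ring
  have h5 : 0 < (τ - 1) ^ 2 * τ⁻¹ := by positivity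
  linarith

lemma eta_inj {τ τ' : ℝ} (h : 1 < τ) (h' : 1 < τ') (he : τ + τ⁻¹ = τ' + τ'⁻¹) : τ = τ' := by
  have h0 : 0 < τ := by linarith
  have h0' : 0 < τ' := by linarith
  have h1 : (τ - τ') * (τ * τ' - 1) = 0 := by
    field_simp at he
    linear_combination he
  rcases mul_eq_zero.1 h1 with h2 | h2
  · linarith
  · nlinarith

/-- the coefficients of the minimal polynomial of `τ + 1 / τ` -/
lemma salem_coef {τ : ℝ} (h : IsSalem τ) {q : ℕ} (hd : (minpoly ℤ (τ + τ⁻¹)).natDegree = q + 2) :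
    (∀ j ≤ q + 1, |((minpoly ℤ (τ + τ⁻¹)).coeff j : ℝ)| ≤ 4 ^ (q + 1) * (1 + (τ + τ⁻¹))) ∧
      |((minpoly ℤ (τ + τ⁻¹)).coeff (q + 1) : ℝ) + (τ + τ⁻¹)| ≤ 2 * (q + 1) := by
  obtain ⟨h2, _, h3⟩ := h.struct
  obtain ⟨β, hβ⟩ : ∃ β : ℝ, β = τ + τ⁻¹ := ⟨_, rfl⟩
  have hβ0 : 0 < β := by rw [hβ]; linarith [eta_gt h.1]
  rw [← hβ] at h2 h3 hd ⊢
  obtain ⟨P, hP⟩ : ∃ P : ℂ[X], P = (minpoly ℤ β).map (Int.castRingHom ℂ) := ⟨_, rfl⟩
  obtain ⟨g1, g2, g3, g4⟩ := simple_root h2 hP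
  have h4 := coef_bd (K := 2) (by norm_num) P g2 (by rw [g3, hd]) (β : ℂ) g4 (fun z hz => by
    obtain ⟨e1, e2⟩ := other_roots h2 hP hz
    exact h3 z e1 e2)
  obtain ⟨h5, h6⟩ := h4
  have hco : ∀ j, P.coeff j = (((minpoly ℤ β).coeff j : ℝ) : ℂ) := by
    intro j
    rw [hP, coeff_map]
    simp
  constructor
  · intro j hj
    have h7 := h5 j hj
    rw [hco, Complex.norm_real, Complex.norm_real, Real.norm_eq_abs, Real.norm_eq_abs, abs_of_pos hβ0] at h7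
    norm_num at h7 ⊢
    exact h7
  · rw [hco, ← Complex.ofReal_add, Complex.norm_real, Real.norm_eq_abs] at h6
    exact h6

/-- the data of a Salem number -/
noncomputable def Psi (q : ℕ) (τ : ℝ) : ℤ × (Fin (q + 1) → ℤ) := Phi q (τ + τ⁻¹)

lemma Sal_deg {q X : ℕ} {τ : ℝ} (hτ : τ ∈ Sal (2 * (q + 2)) X) : (minpoly ℤ (τ + τ⁻¹)).natDegree = q + 2 := by
  have h1 := hτ.1.struct.2.1
  rw [hτ.2.1] at h1
  omega

lemma Psi_inj (q X : ℕ) : Set.InjOn (Psi q) (Sal (2 * (q + 2)) X) := by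
  intro τ hτ τ' hτ' h
  obtain ⟨g1, g2, g3⟩ := hτ.1.struct
  obtain ⟨g1', g2', g3'⟩ := hτ'.1.struct
  have h3 := minpoly_ext g1 g1' (Sal_deg hτ) (Sal_deg hτ') h
  apply eta_inj hτ.1.1 hτ'.1.1
  by_contra hne
  have h4 : aeval (((τ' + τ'⁻¹ : ℝ)) : ℂ) (minpoly ℤ (τ + τ⁻¹)) = 0 := by
    rw [h3]; exact aeval_self _
  have h5 := g3 _ h4 (by
    intro h8
    apply hne
    exact_mod_cast h8.symm)
  rw [Complex.norm_real, Real.norm_eq_abs] at h5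
  have h6 := eta_gt hτ'.1.1
  rw [abs_of_pos (by linarith)] at h5
  linarith

/-- the bounds for the coefficients -/
lemma Psi_bd {q X : ℕ} (hX : 1 ≤ X) {τ : ℝ} (hτ : τ ∈ Sal (2 * (q + 2)) X) :
    |((Psi q τ).1 : ℝ) - (τ + τ⁻¹)| ≤ 2 * (q + 1) ∧
      (∀ k, |((Psi q τ).2 k : ℝ)| ≤ (4 ^ (q + 2) + 2 * (q + 2)) * X) ∧
      ((Psi q τ).1 : ℝ) ≤ (4 ^ (q + 2) + 2 * (q + 2)) * X := by
  obtain ⟨h4, h5⟩ := salem_coef hτ.1 (Sal_deg hτ)
  have hX1 : (1 : ℝ) ≤ X := by exact_mod_cast hX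
  have hτ1 := hτ.1.1
  have hτi : τ⁻¹ < 1 := inv_lt_one_of_one_lt₀ hτ1
  have hη : τ + τ⁻¹ ≤ X + 1 := by linarith [hτ.2.2]
  have hη2 := eta_gt hτ1
  obtain ⟨β, hβ⟩ : ∃ β : ℝ, β = τ + τ⁻¹ := ⟨_, rfl⟩
  simp only [Psi]
  rw [← hβ] at h4 h5 hη hη2 ⊢
  have h6 : |((Phi q β).1 : ℝ) - β| ≤ 2 * (q + 1) := by
    rw [← abs_neg]
    simp only [Phi]
    push_cast
    rw [show -(-((minpoly ℤ β).coeff (q + 1) : ℝ) - β) = ((minpoly ℤ β).coeff (q + 1) : ℝ) + β by ring]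
    exact h5
  have hq0 : (0 : ℝ) ≤ q := Nat.cast_nonneg q
  refine ⟨h6, ?_, ?_⟩
  · intro k
    have h7 := h4 (q - k) (by omega)
    simp only [Phi]
    push_cast
    rw [abs_neg]
    refine h7.trans ?_
    calc (4 : ℝ) ^ (q + 1) * (1 + β) ≤ 4 ^ (q + 1) * (4 * X) := by
          gcongr
          linarith
      _ = 4 ^ (q + 2) * X := by rw [pow_succ 4 (q + 1)]; ring
      _ ≤ _ := by nlinarith
  · have h8 := (abs_le.1 h6).2
    have h9 : (0 : ℝ) < 4 ^ (q + 2) := by positivity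
    have h10 : (1 : ℝ) ≤ 4 ^ (q + 2) := one_le_pow₀ (by norm_num)
    nlinarith

lemma Sal_finite (q X : ℕ) : (Sal (2 * (q + 2)) X).Finite := by
  classical
  rcases Nat.eq_zero_or_pos X with rfl | hX
  · have : Sal (2 * (q + 2)) 0 = ∅ := by
      ext β
      simp only [Sal, Set.mem_ofPred_eq, Set.mem_empty_iff_false, iff_false]
      rintro ⟨h1, _, h3⟩
      have := h1.1
      push_cast at h3
      linarith
    rw [this]
    exact Set.finite_empty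
  · obtain ⟨L, hL⟩ : ∃ L : ℕ, ((4 : ℝ) ^ (q + 2) + 2 * (q + 2)) * X ≤ L := exists_nat_ge _
    have himg : (Psi q '' (Sal (2 * (q + 2)) X)).Finite := by
      refine (Finset.finite_toSet (Finset.Icc (-((L : ℤ) + 2 * (q + 1))) ((L : ℤ) + 2 * (q + 1)) ×ˢ
        Fintype.piFinset (fun _ : Fin (q + 1) => Finset.Icc (-(L : ℤ)) L))).subset ?_
      rintro _ ⟨β, hβ, rfl⟩
      obtain ⟨h1, h2, h3⟩ := Psi_bd hX hβ
      rw [Finset.mem_coe, mem_product, Fintype.mem_piFinset]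
      constructor
      · rw [Finset.mem_Icc]
        have h4 := abs_le.1 h1
        have h5 := eta_gt hβ.1.1
        have hL0 : (0 : ℝ) ≤ L := Nat.cast_nonneg L
        constructor
        · have : (-((L : ℝ) + 2 * (q + 1))) ≤ ((Psi q β).1 : ℝ) := by linarith
          exact_mod_cast this
        · have : ((Psi q β).1 : ℝ) ≤ (L : ℝ) + 2 * (q + 1) := by
            have : (0 : ℝ) ≤ q := Nat.cast_nonneg q
            linarith
          exact_mod_cast this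
      · intro k
        rw [Finset.mem_Icc]
        have h4 := (h2 k).trans hL
        have h5 : |(Psi q β).2 k| ≤ (L : ℤ) := by exact_mod_cast h4
        exact abs_le.1 h5
    exact Set.Finite.of_finite_image himg (Psi_inj q X)

/-- **The number of bad Salem numbers** -/
theorem salem_bad : ∃ γ : ℝ, 0 < γ ∧ ∀ q : ℕ, ∀ ε : ℝ, 0 < ε → ∃ X₀ : ℕ, ∀ X : ℕ, X₀ ≤ X →
    (({τ | τ ∈ Sal (2 * (q + 2)) X ∧ ∃ b u v : ℕ, 2 ≤ b ∧ (Real.log X) ^ (1 - γ) ≤ (v : ℝ) - u ∧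
      v * Real.log b ≤ (Real.log X) ^ (1 + γ) ∧ ¬ EquiW τ b u v ε}.ncard : ℕ) : ℝ) ≤
      (X : ℝ) ^ (q + 2) * Real.exp (-(Real.log X) ^ (11 / 20 : ℝ)) := by
  classical
  obtain ⟨γ, hγ0, hγ1, hfib⟩ := fibreS
  refine ⟨γ / 2, by positivity, ?_⟩
  intro q ε hε
  obtain ⟨C, hC⟩ : ∃ C : ℝ, C = 4 ^ (q + 2) + 2 * (q + 2) := ⟨_, rfl⟩
  have hC1 : 1 ≤ C := by
    have : (0 : ℝ) < 4 ^ (q + 2) := by positivity
    have : (0 : ℝ) ≤ q := Nat.cast_nonneg q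
    rw [hC]; linarith
  obtain ⟨X₁, hX₁⟩ := hfib q C ε hC1 hε
  obtain ⟨X₂, hX₂⟩ := count q C γ hC1 hγ0 hγ1
  have hNr : Tendsto (fun N : ℕ => (N : ℝ)) atTop atTop := tendsto_natCast_atTop_atTop
  have ev1 : ∀ᶠ x : ℝ in atTop, (2 * ((q : ℝ) + 1)) * x ^ (0 : ℝ) ≤ x ^ (19 / 20 : ℝ) := ev_pow _ _ _ (by norm_num)
  obtain ⟨X₀, hX₀⟩ := eventually_atTop.1 ((hNr.eventually ev1).and
    (eventually_ge_atTop (max (max X₁ X₂) 2)))
  refine ⟨X₀, ?_⟩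
  intro X hX
  obtain ⟨q1, q4⟩ := hX₀ X hX
  simp only [max_le_iff] at q4
  obtain ⟨⟨q5, q6⟩, q8⟩ := q4
  rw [Real.rpow_zero, mul_one] at q1
  have hX1 : (1 : ℝ) ≤ X := by exact_mod_cast (by omega : 1 ≤ X)
  set Bad : Set ℝ := {τ | τ ∈ Sal (2 * (q + 2)) X ∧ ∃ b u v : ℕ, 2 ≤ b ∧ (Real.log X) ^ (1 - γ / 2) ≤ (v : ℝ) - u ∧
      v * Real.log b ≤ (Real.log X) ^ (1 + γ / 2) ∧ ¬ EquiW τ b u v ε} with hBad
  let ext : (Fin (q + 1) → ℤ) → ℕ → ℝ := fun b k => if h : k < q + 1 then (b ⟨k, h⟩ : ℝ) else 0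
  have hext : ∀ (b : Fin (q + 1) → ℤ) (k : Fin (q + 1)), ext b k = b k := by
    intro b k
    simp only [ext]
    rw [dif_pos k.2]
  let Bd : (Fin (q + 1) → ℤ) → Set ℕ := fun b => {n : ℕ | ∃ x t : ℝ, (n : ℝ) / 2 ≤ x ∧ 1 < t ∧ t + t⁻¹ = x ∧
    (x : ℂ) - psi q (ext b) x = n ∧ ∃ c u v : ℕ, 2 ≤ c ∧ (Real.log X) ^ (1 - γ / 2) ≤ (v : ℝ) - u ∧
          v * Real.log c ≤ (Real.log X) ^ (1 + γ / 2) ∧ ¬ EquiW t c u v ε}
  have hcount := hX₂ X q6 Bd (by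
    intro b hb hb0 N hN1 hN2
    have h1 := hX₁ X q5 (ext b) (by
      intro k hk
      have := hext b ⟨k, by omega⟩
      simp only at this
      rw [this]
      exact hb _) (by
      have := hext b 0
      simp only [Fin.val_zero] at this
      rw [this]
      exact hb0) N hN1 hN2
    refine le_trans ?_ h1
    refine Nat.cast_le.2 (Set.ncard_le_ncard ?_ ((Set.finite_Icc 0 (2 * N)).subset
      fun n hn => ⟨Nat.zero_le _, hn.2.1⟩))
    rintro n ⟨a1, a2, x, t, a3, t1, t2, a4, a5⟩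
    refine ⟨a1, a2, x, t, ?_, t1, t2, a4, a5⟩
    have : (N : ℝ) ≤ n := by exact_mod_cast a1.le
    have : (0 : ℝ) ≤ N := Nat.cast_nonneg N
    linarith) (Psi q '' Bad) (by
    rintro _ ⟨τ, ⟨hτ, hbad⟩, rfl⟩
    obtain ⟨h1, h2, h3⟩ := Psi_bd (by omega) hτ
    rw [← hC] at h2 h3
    have h4 := abs_le.1 h1
    have h5 := eta_gt hτ.1.1
    obtain ⟨hη, _, _⟩ := hτ.1.struct
    have hdeg := Sal_deg hτ
    refine ⟨by linarith, h3, h2, ?_⟩
    intro _ h6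
    obtain ⟨β, hβ⟩ : ∃ β : ℝ, β = τ + τ⁻¹ := ⟨_, rfl⟩
    simp only [Psi] at h1 h4 h6 ⊢
    rw [← hβ] at h1 h4 h5 h6 hη hdeg ⊢
    have h7 : (0 : ℝ) ≤ ((Phi q β).1 : ℝ) := by
      have : (0 : ℝ) ≤ 2 * (X : ℝ) ^ (19 / 20 : ℝ) := by positivity
      linarith
    have h7' : 0 ≤ (Phi q β).1 := by exact_mod_cast h7
    have h8 : (((Phi q β).1.toNat : ℕ) : ℤ) = (Phi q β).1 := Int.toNat_of_nonneg h7'
    have h8' : (((Phi q β).1.toNat : ℕ) : ℝ) = ((Phi q β).1 : ℝ) := by exact_mod_cast h8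
    refine ⟨β, τ, by rw [h8']; linarith, hτ.1.1, hβ.symm, ?_, hbad⟩
    have h9 : psi q (ext (Phi q β).2) β = psi q (fun k => -((minpoly ℤ β).coeff (q - k) : ℝ)) β := by
      unfold psi
      refine sum_congr rfl fun k hk => ?_
      rw [mem_range] at hk
      have := hext (Phi q β).2 ⟨k, hk⟩
      simp only at this
      rw [this]
      simp only [Phi]
      push_cast
      rfl
    have hβ0 : (β : ℂ) ≠ 0 := by
      intro h0
      have : β = 0 := by exact_mod_cast h0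
      linarith
    rw [h9, psi_eq _ (minpoly.monic hη) hdeg _ hβ0 (aeval_self β)]
    have h10 : (((Phi q β).1.toNat : ℕ) : ℂ) = (((Phi q β).1 : ℤ) : ℂ) := by exact_mod_cast h8
    rw [h10]
    simp only [Phi]
    push_cast
    rfl)
  obtain ⟨hfin, hle⟩ := hcount
  rwa [Set.ncard_image_of_injOn ((Psi_inj q X).mono fun β hβ => hβ.1)] at hle

end Pool.Agent.H17.Sal
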