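import Pool.Agent.H17.Sal.C

/-!
# Salem numbers: construction (helper17)
-/

set_option autoImplicit false

namespace Pool.Agent.H17.Sal

open Finset Filter Topology Polynomial
open Pool.Agent.H17.GS (Pol Pol_monic Pol_coeff)

lemma ivt_sign {f : ℝ → ℝ} (hf : Continuous f) {a b : ℝ} (hab : a < b) (h : f a * f b < 0) :
    ∃ c ∈ Set.Ioo a b, f c = 0 := by
  rcases mul_neg_iff.1 h with ⟨h1, h2⟩ | ⟨h1, h2⟩
  · obtain ⟨c, hc, hc2⟩ := intermediate_value_Ioo' hab.le hf.continuousOn ⟨h2, h1⟩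
    exact ⟨c, hc, hc2⟩
  · obtain ⟨c, hc, hc2⟩ := intermediate_value_Ioo hab.le hf.continuousOn ⟨h1, h2⟩
    exact ⟨c, hc, hc2⟩

/-- a number with `z + 1 / z` real in `(-2, 2)` lies on the unit circle -/
lemma norm_one_of {z : ℂ} {r : ℝ} (hz : z ≠ 0) (h : z + z⁻¹ = r) (hr : |r| < 2) : ‖z‖ = 1 := by
  have h1 : z * z - r * z + 1 = 0 := by
    have : z * z⁻¹ = 1 := mul_inv_cancel₀ hz
    linear_combination z * h - this
  have h2 := congrArg Complex.re h1
  have h3 := congrArg Complex.im h1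
  simp only [Complex.add_re, Complex.sub_re, Complex.mul_re, Complex.ofReal_re, Complex.ofReal_im, zero_mul,
    sub_zero, Complex.one_re, Complex.zero_re, Complex.add_im, Complex.sub_im, Complex.mul_im, add_zero,
    Complex.one_im, Complex.zero_im] at h2 h3
  have h4 : z.im * (2 * z.re - r) = 0 := by linear_combination h3
  have h5 : z.im ≠ 0 := by
    intro h0
    rw [h0] at h2
    have h6 := abs_lt.1 hr
    nlinarith [sq_nonneg (z.re - r / 2)]
  have h6 : 2 * z.re - r = 0 := (mul_eq_zero.1 h4).resolve_left h5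
  have h7 : z.re * z.re + z.im * z.im = 1 := by linear_combination -h2 + z.re * h6
  have h8 : ‖z‖ ^ 2 = 1 := by
    rw [← Complex.normSq_eq_norm_sq, Complex.normSq_apply]
    exact h7
  have h9 : 0 ≤ ‖z‖ := norm_nonneg z
  nlinarith

lemma eisenstein {q : ℕ} (t : ℤ × (Fin (q + 1) → ℤ)) (h1 : 2 ∣ t.1) (h2 : ∀ j, 2 ∣ t.2 j)
    (h3 : t.2 0 % 4 = 2) : Irreducible (Pol q t) := by
  obtain ⟨hm, hd⟩ := Pol_monic q t
  obtain ⟨c1, c2⟩ := Pol_coeff q t
  have hprime : (Ideal.span {(2 : ℤ)}).IsPrime := by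
    rw [Ideal.span_singleton_prime (by norm_num)]
    exact Int.prime_two
  have hE : (Pol q t).IsEisensteinAt (Ideal.span {(2 : ℤ)}) := by
    refine ⟨?_, ?_, ?_⟩
    · rw [hm.leadingCoeff, Ideal.mem_span_singleton]
      norm_num
    · intro n hn
      rw [hd] at hn
      rw [Ideal.mem_span_singleton]
      rcases Nat.lt_or_ge n (q + 1) with h | h
      · have := c2 ⟨n, h⟩
        simp only at this
        rw [this]
        exact h2 _
      · have : n = q + 1 := by omega
        rw [this, c1]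
        exact (dvd_neg).2 h1
    · have h4 : (Pol q t).coeff 0 = t.2 0 := by
        have := c2 0
        simpa using this
      rw [h4, Ideal.span_singleton_pow, Ideal.mem_span_singleton]
      intro h5
      omega
  exact hE.irreducible hprime hm.isPrimitive (by rw [hd]; omega)

/-- A Salem number from a polynomial with sign changes -/
theorem exists_salem {q : ℕ} (t : ℤ × (Fin (q + 1) → ℤ)) (h1 : 2 ∣ t.1) (h2 : ∀ j, 2 ∣ t.2 j)
    (h3 : t.2 0 % 4 = 2) (ξ : ℕ → ℝ) (hξ : ∀ i, ξ i < ξ (i + 1)) (hξ0 : ξ 0 = -2) (hξ1 : ξ (q + 1) = 2)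
    (hsgn : ∀ i < q + 1, aeval (ξ i) (Pol q t) * aeval (ξ (i + 1)) (Pol q t) < 0) (Y : ℝ) (hY : 2 < Y)
    (hbig : aeval (2 : ℝ) (Pol q t) * aeval Y (Pol q t) < 0) :
    ∃ τ : ℝ, IsSalem τ ∧ (minpoly ℤ τ).natDegree = 2 * (q + 2) ∧ τ ≤ Y ∧
      minpoly ℤ (τ + τ⁻¹) = Pol q t := by
  classical
  obtain ⟨hm, hd⟩ := Pol_monic q t
  have hirr := eisenstein t h1 h2 h3
  have hmono : StrictMono ξ := strictMono_nat_of_lt_succ hξ
  have hcont : Continuous fun x : ℝ => aeval x (Pol q t) := (Pol q t).continuous_aeval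
  obtain ⟨η, ⟨hη2, hηY⟩, hη0⟩ := ivt_sign hcont hY hbig
  have hr : ∀ i : Fin (q + 1), ∃ r : ℝ, r ∈ Set.Ioo (ξ i) (ξ (i + 1)) ∧ aeval r (Pol q t) = 0 := by
    intro i
    obtain ⟨c, hc, hc2⟩ := ivt_sign hcont (hξ i) (hsgn i i.2)
    exact ⟨c, hc, hc2⟩
  choose r hr1 hr2 using hr
  have hr3 : ∀ i, |r i| < 2 := by
    intro i
    have g1 : ξ 0 ≤ ξ i := hmono.monotone (Nat.zero_le _)
    have g2 : ξ (i + 1) ≤ ξ (q + 1) := hmono.monotone (by have := i.2; omega)
    rw [hξ0] at g1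
    rw [hξ1] at g2
    obtain ⟨g3, g4⟩ := hr1 i
    rw [abs_lt]
    constructor <;> linarith
  have hrinj : Function.Injective r := by
    have : StrictMono r := by
      intro i j hij
      have g1 : ξ (i + 1) ≤ ξ j := hmono.monotone (by exact_mod_cast hij)
      exact lt_of_lt_of_le (hr1 i).2 (g1.trans (hr1 j).1.le)
    exact this.injective
  -- all the roots
  set I : Finset ℂ := insert (η : ℂ) ((univ : Finset (Fin (q + 1))).image fun i => (r i : ℂ)) with hI
  have hIcard : I.card = q + 2 := by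
    rw [hI, card_insert_of_notMem, card_image_of_injective, card_univ, Fintype.card_fin]
    · intro i j h
      have h' : (r i : ℂ) = r j := h
      exact hrinj (by exact_mod_cast h')
    · rw [mem_image]
      rintro ⟨i, _, h⟩
      have h5 : r i = η := by exact_mod_cast h
      have := (abs_lt.1 (hr3 i)).2
      linarith
  have hroots : ∀ w : ℂ, aeval w (Pol q t) = 0 → w = η ∨ ∃ i, w = r i := by
    intro w hw
    set R : Finset ℂ := ((Pol q t).map (Int.castRingHom ℂ)).roots.toFinset with hR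
    have hmem : ∀ z : ℂ, z ∈ R ↔ aeval z (Pol q t) = 0 := by
      intro z
      rw [hR, Multiset.mem_toFinset, mem_roots (hm.map _).ne_zero, IsRoot, eval_map]
      exact Iff.rfl
    have hsub : I ⊆ R := by
      intro z hz
      rw [hmem]
      rw [hI, mem_insert, mem_image] at hz
      rcases hz with rfl | ⟨i, _, rfl⟩
      · rw [aeval_real, hη0]; simp
      · rw [aeval_real, hr2]; simp
    have hRc : R.card ≤ I.card := by
      rw [hIcard]
      exact (Multiset.toFinset_card_le _).trans ((card_roots' _).trans (by rw [hm.natDegree_map, hd]))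
    have heq := eq_of_subset_of_card_le hsub hRc
    have h5 : w ∈ I := by rw [heq, hmem]; exact hw
    rw [hI, mem_insert, mem_image] at h5
    rcases h5 with h5 | ⟨i, _, h5⟩
    · exact Or.inl h5
    · exact Or.inr ⟨i, h5.symm⟩
  -- the minimal polynomial of `η`
  have hηi : IsIntegral ℤ η := ⟨_, hm, hη0⟩
  have hmin : minpoly ℤ η = Pol q t := by
    have hdvd : minpoly ℤ η ∣ Pol q t := minpoly.isIntegrallyClosed_dvd hηi hη0
    rcases hirr.dvd_iff.1 hdvd with h | h
    · exact absurd h (minpoly.not_isUnit ℤ η)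
    · exact eq_of_monic_of_associated (minpoly.monic hηi) hm h.symm
  -- the number `τ`
  obtain ⟨s, hs⟩ : ∃ s : ℝ, s = √(η ^ 2 - 4) := ⟨_, rfl⟩
  have hs2 : s ^ 2 = η ^ 2 - 4 := by
    rw [hs, Real.sq_sqrt]
    nlinarith
  have hs0 : 0 < s := by
    rw [hs]
    apply Real.sqrt_pos.2
    nlinarith
  have hsη : s < η := by nlinarith
  obtain ⟨τ, hτ⟩ : ∃ τ : ℝ, τ = (η + s) / 2 := ⟨_, rfl⟩
  have hτ1 : 1 < τ := by rw [hτ]; linarith
  have hτ0 : 0 < τ := by linarith
  have hτinv : τ⁻¹ = (η - s) / 2 := by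
    rw [inv_eq_iff_eq_inv]
    apply eq_inv_of_mul_eq_one_left
    rw [hτ]
    nlinarith
  have hτη : τ + τ⁻¹ = η := by rw [hτinv, hτ]; ring
  have hτi : IsIntegral ℤ τ := by
    have hx : IsIntegral (integralClosure ℤ ℝ) τ := by
      refine ⟨X ^ 2 + (C (1 : integralClosure ℤ ℝ) - C (⟨η, hηi⟩ : integralClosure ℤ ℝ) * X), ?_, ?_⟩
      · apply monic_X_pow_add
        apply lt_of_le_of_lt (degree_sub_le _ _)
        rw [max_lt_iff]
        constructor
        · exact lt_of_le_of_lt degree_C_le (by norm_num)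
        · exact lt_of_le_of_lt (degree_C_mul_X_le _) (by norm_num)
      · rw [eval₂_add, eval₂_sub, eval₂_mul, eval₂_pow, eval₂_X, eval₂_C, eval₂_C, map_one]
        have h6 : algebraMap (integralClosure ℤ ℝ) ℝ (⟨η, hηi⟩ : integralClosure ℤ ℝ) = η := rfl
        rw [h6, ← hτη]
        have : τ⁻¹ * τ = 1 := inv_mul_cancel₀ hτ0.ne'
        linear_combination -this
    exact isIntegral_trans τ hx
  have hηi' : IsIntegral ℤ (τ + τ⁻¹) := by rw [hτη]; exact hηi
  have hmin' : minpoly ℤ (τ + τ⁻¹) = Pol q t := by rw [hτη]; exact hmin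
  have hsal : IsSalem τ := by
    refine ⟨hτ1, hτi, ?_, ?_⟩
    · intro z hz hne
      have hz0 := (no_self_inv hτ1 hτi z hz).1
      have hw := push_root hτi hηi' hz
      rw [hmin'] at hw
      rcases hroots _ hw with h | ⟨i, h⟩
      · have e4 : (z - τ) * (z * τ - 1) = 0 := by
          have h7 : z + z⁻¹ = (τ : ℂ) + (τ : ℂ)⁻¹ := by
            rw [h, ← hτη]; push_cast; rfl
          have hτc : (τ : ℂ) ≠ 0 := by exact_mod_cast hτ0.ne'
          field_simp at h7
          linear_combination h7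
        rcases mul_eq_zero.1 e4 with h8 | h8
        · exact absurd (sub_eq_zero.1 h8) hne
        · have h9 : z = ((τ⁻¹ : ℝ) : ℂ) := by
            rw [Complex.ofReal_inv]
            exact eq_inv_of_mul_eq_one_left (sub_eq_zero.1 h8)
          rw [h9, Complex.norm_real, Real.norm_eq_abs, abs_of_pos (by positivity)]
          exact (inv_lt_one_of_one_lt₀ hτ1).le
      · exact (norm_one_of hz0 h (hr3 i)).le
    · have hw : aeval ((r 0 : ℝ) : ℂ) (minpoly ℤ (τ + τ⁻¹)) = 0 := by
        rw [hmin', aeval_real, hr2]; simp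
      obtain ⟨z, g1, g2, g3⟩ := lift_root hτi hηi' hw hτ0.ne'
      exact ⟨z, g2, norm_one_of g1 g3 (hr3 0)⟩
  refine ⟨τ, hsal, ?_, ?_, hmin'⟩
  · rw [hsal.struct.2.1, hmin', hd]
  · rw [hτ]; linarith

end Pool.Agent.H17.Sal
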