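import Pool.Agent.H17.Sal.D

/-!
# Salem numbers: many of them (helper17)
-/

set_option autoImplicit false

namespace Pool.Agent.H17.Sal

open Finset Filter Topology Polynomial
open Pool.Agent.H17.GS (Pol Pol_monic Pol_coeff)

lemma Pol_eval {q : ℕ} (t : ℤ × (Fin (q + 1) → ℤ)) (y : ℝ) :
    aeval y (Pol q t) = y ^ (q + 2) + (∑ j : Fin (q + 1), (t.2 j : ℝ) * y ^ (j : ℕ) - t.1 * y ^ (q + 1)) := by
  rw [Pol, map_add, map_pow, aeval_X, map_sub, map_sum, map_mul, map_pow, aeval_X, aeval_C]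
  congr 1
  congr 1
  refine sum_congr rfl fun j _ => ?_
  rw [map_mul, map_pow, aeval_X, aeval_C]
  rfl

/-- the test points -/
noncomputable def xi (q : ℕ) (i : ℕ) : ℝ := -2 + 4 * i / (q + 1)

/-- the midpoints -/
noncomputable def mid (q : ℕ) (i : ℕ) : ℝ := xi q i + 2 / (q + 1)

lemma xi_lt (q i : ℕ) : xi q i < xi q (i + 1) := by
  unfold xi
  push_cast
  have : (0 : ℝ) < q + 1 := by positivity
  have h : 4 * (i : ℝ) / (q + 1) < 4 * (i + 1) / (q + 1) := by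
    apply div_lt_div_of_pos_right _ this
    linarith
  linarith

lemma xi_mono (q : ℕ) : StrictMono (xi q) := strictMono_nat_of_lt_succ (xi_lt q)

lemma mid_gt (q i : ℕ) : xi q i < mid q i := by
  unfold mid
  have : (0 : ℝ) < 2 / (q + 1) := by positivity
  linarith

lemma mid_lt (q i : ℕ) : mid q i < xi q (i + 1) := by
  unfold mid xi
  push_cast
  have : (0 : ℝ) < q + 1 := by positivity
  have h : 4 * ((i : ℝ) + 1) / (q + 1) = 4 * i / (q + 1) + 4 / (q + 1) := by ring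
  have h2 : (2 : ℝ) / (q + 1) < 4 / (q + 1) := by
    apply div_lt_div_of_pos_right _ this
    norm_num
  rw [h]
  linarith

/-- the auxiliary polynomial -/
noncomputable def Qp (q : ℕ) : ℝ[X] := ∏ j ∈ range (q + 1), (X - C (mid q j))

lemma Qp_monic (q : ℕ) : (Qp q).Monic ∧ (Qp q).natDegree = q + 1 := by
  constructor
  · exact monic_prod_of_monic _ _ fun j _ => monic_X_sub_C _
  · rw [Qp, natDegree_prod_of_monic _ _ fun j _ => monic_X_sub_C _]
    simp

lemma Qp_sign (q i : ℕ) (hi : i ≤ q + 1) : 0 < (-1 : ℝ) ^ (q + 1 - i) * (Qp q).eval (xi q i) := by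
  rw [Qp, eval_prod, ← prod_range_mul_prod_Ico _ hi]
  have h1 : 0 < ∏ j ∈ range i, eval (xi q i) (X - C (mid q j)) := by
    apply prod_pos
    intro j hj
    rw [mem_range] at hj
    rw [eval_sub, eval_X, eval_C]
    have h2 := mid_lt q j
    have h3 : xi q (j + 1) ≤ xi q i := (xi_mono q).monotone hj
    linarith
  have h2 : ∏ j ∈ Ico i (q + 1), eval (xi q i) (X - C (mid q j)) =
      (-1 : ℝ) ^ (q + 1 - i) * ∏ j ∈ Ico i (q + 1), (mid q j - xi q i) := by
    have h3 : ∀ j ∈ Ico i (q + 1), eval (xi q i) (X - C (mid q j)) = -(mid q j - xi q i) := by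
      intro j _
      rw [eval_sub, eval_X, eval_C]; ring
    rw [prod_congr rfl h3, prod_neg, Nat.card_Ico]
  have h4 : 0 < ∏ j ∈ Ico i (q + 1), (mid q j - xi q i) := by
    apply prod_pos
    intro j hj
    rw [mem_Ico] at hj
    have h5 := mid_gt q j
    have h6 : xi q i ≤ xi q j := (xi_mono q).monotone hj.1
    linarith
  have h5 : (-1 : ℝ) ^ (q + 1 - i) * (-1 : ℝ) ^ (q + 1 - i) = 1 := by
    rw [← mul_pow]; norm_num
  rw [h2]
  calc 0 < (∏ j ∈ range i, eval (xi q i) (X - C (mid q j))) * ∏ j ∈ Ico i (q + 1), (mid q j - xi q i) := by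
        positivity
    _ = (-1 : ℝ) ^ (q + 1 - i) * ((∏ j ∈ range i, eval (xi q i) (X - C (mid q j))) *
          ((-1 : ℝ) ^ (q + 1 - i) * ∏ j ∈ Ico i (q + 1), (mid q j - xi q i))) := by
        linear_combination (-(∏ j ∈ range i, eval (xi q i) (X - C (mid q j))) *
          ∏ j ∈ Ico i (q + 1), (mid q j - xi q i)) * h5

lemma Qp_eval (q : ℕ) (y : ℝ) :
    (Qp q).eval y = ∑ j : Fin (q + 1), (Qp q).coeff j * y ^ (j : ℕ) + y ^ (q + 1) := by
  obtain ⟨h1, h2⟩ := Qp_monic q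
  rw [eval_eq_sum_range, h2, sum_range_succ,
    Fin.sum_univ_eq_sum_range (fun j => (Qp q).coeff j * y ^ j) (q + 1)]
  congr 1
  have : (Qp q).coeff (q + 1) = 1 := by rw [← h2]; exact h1
  rw [this, one_mul]

/-- the coefficients -/
noncomputable def Tp (q : ℕ) (p : ℕ × (Fin (q + 1) → ℕ)) : ℤ × (Fin (q + 1) → ℤ) :=
  (2 * p.1, fun j => 4 * (⌈-(2 * (p.1 : ℝ)) * (Qp q).coeff j / 4⌉ + p.2 j) + (if j = 0 then 2 else 0))

lemma Tp_inj (q : ℕ) : Function.Injective (Tp q) := by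
  intro p p' h
  simp only [Tp, Prod.mk.injEq] at h
  obtain ⟨h1, h2⟩ := h
  have h3 : p.1 = p'.1 := by omega
  apply Prod.ext h3
  funext j
  have h4 := congrFun h2 j
  rw [h3] at h4
  omega

lemma Tp_bd (q L : ℕ) (p : ℕ × (Fin (q + 1) → ℕ)) (hp : ∀ j, p.2 j < L) (j : Fin (q + 1)) :
    |((Tp q p).2 j : ℝ) + 2 * (p.1 : ℝ) * (Qp q).coeff j| ≤ 4 * L + 2 := by
  obtain ⟨a, ha⟩ : ∃ a : ℝ, a = -(2 * (p.1 : ℝ)) * (Qp q).coeff j / 4 := ⟨_, rfl⟩
  have h1 := Int.le_ceil a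
  have h2 := Int.ceil_lt_add_one a
  have h3 : (p.2 j : ℝ) + 1 ≤ L := by exact_mod_cast hp j
  have h4 : (0 : ℝ) ≤ p.2 j := Nat.cast_nonneg _
  have h5 : ((Tp q p).2 j : ℝ) + 2 * (p.1 : ℝ) * (Qp q).coeff j =
      4 * (((⌈a⌉ : ℤ) : ℝ) - a + p.2 j) + (if j = 0 then 2 else 0) := by
    simp only [Tp]
    rw [← ha]
    push_cast
    rw [ha]
    ring
  have h6 : (0 : ℝ) ≤ (if j = 0 then 2 else 0) ∧ ((if j = 0 then 2 else 0) : ℝ) ≤ 2 := by
    split_ifs <;> norm_num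
  rw [h5, abs_le]
  constructor <;> linarith [h6.1, h6.2]

/-- **Many Salem numbers** -/
theorem Sal_many (q : ℕ) : ∃ c : ℝ, 0 < c ∧ ∃ X₀ : ℕ, ∀ X : ℕ, X₀ ≤ X →
    c * (X : ℝ) ^ (q + 2) ≤ ((Sal (2 * (q + 2)) X).ncard : ℝ) := by
  classical
  obtain ⟨κ, hκ0, hκ⟩ : ∃ κ : ℝ, 0 < κ ∧ ∀ i ≤ q + 1, κ ≤ (-1 : ℝ) ^ (q + 1 - i) * (Qp q).eval (xi q i) := by
    obtain ⟨i₀, h1, h2⟩ := exists_min_image (range (q + 2))
      (fun i => (-1 : ℝ) ^ (q + 1 - i) * (Qp q).eval (xi q i)) ⟨0, by simp⟩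
    rw [mem_range] at h1
    exact ⟨_, Qp_sign q i₀ (by omega), fun i hi => h2 i (by rw [mem_range]; omega)⟩
  obtain ⟨B, hB⟩ : ∃ B : ℝ, B = ∑ j : Fin (q + 1), |(Qp q).coeff j| := ⟨_, rfl⟩
  have hB0 : 0 ≤ B := by rw [hB]; exact sum_nonneg fun _ _ => abs_nonneg _
  have hBj : ∀ j : Fin (q + 1), |(Qp q).coeff j| ≤ B := by
    intro j
    rw [hB]
    exact single_le_sum (f := fun j : Fin (q + 1) => |(Qp q).coeff j|) (fun _ _ => abs_nonneg _) (mem_univ j)
  obtain ⟨δ, hδ⟩ : ∃ δ : ℝ, δ = κ / (2 ^ (q + 2) * 32) := ⟨_, rfl⟩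
  have hδ0 : 0 < δ := by rw [hδ]; positivity
  obtain ⟨X₁, hX₁⟩ : ∃ X₁ : ℕ, (2 : ℝ) / δ ≤ X₁ := exists_nat_ge _
  obtain ⟨X₂, hX₂⟩ : ∃ X₂ : ℕ, 2 * ((q : ℝ) + 1) * (B + 6 * δ) + 1 ≤ X₂ := exists_nat_ge _
  refine ⟨1 / 16 * (δ / 2) ^ (q + 1), by positivity, max (max X₁ X₂) 16, ?_⟩
  intro X hX
  have hX1 : (2 : ℝ) / δ ≤ X := hX₁.trans (by exact_mod_cast ((le_max_left _ _).trans (le_max_left _ _)).trans hX)
  have hX2 : 2 * ((q : ℝ) + 1) * (B + 6 * δ) + 1 ≤ X :=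
    hX₂.trans (by exact_mod_cast ((le_max_right _ _).trans (le_max_left _ _)).trans hX)
  have hX16 : 16 ≤ X := (le_max_right _ _).trans hX
  have hX16' : (16 : ℝ) ≤ X := by exact_mod_cast hX16
  have hX0 : (0 : ℝ) < X := by linarith
  rw [div_le_iff₀ hδ0] at hX1
  obtain ⟨L, hL⟩ : ∃ L : ℕ, L = ⌊δ * X⌋₊ := ⟨_, rfl⟩
  have hLle : (L : ℝ) ≤ δ * X := by rw [hL]; exact Nat.floor_le (by positivity)
  have hLge : δ * X - 1 < L := by rw [hL]; exact Nat.sub_one_lt_floor _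
  have hL1 : (1 : ℝ) ≤ L := by
    have : 1 ≤ L := by
      rw [hL]
      apply Nat.le_floor
      push_cast
      linarith
    exact_mod_cast this
  have hL2 : δ / 2 * X ≤ L := by linarith
  set S : Finset (ℕ × (Fin (q + 1) → ℕ)) := Finset.Icc (X / 8 + 1) (X / 4) ×ˢ
    Fintype.piFinset (fun _ : Fin (q + 1) => range L) with hS
  have hex : ∀ p ∈ S, ∃ τ : ℝ, τ ∈ Sal (2 * (q + 2)) X ∧ minpoly ℤ (τ + τ⁻¹) = Pol q (Tp q p) := by
    intro p hp
    rw [hS, mem_product, Finset.mem_Icc, Fintype.mem_piFinset] at hp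
    obtain ⟨⟨p1, p2⟩, p3⟩ := hp
    have p3' : ∀ j, p.2 j < L := fun j => mem_range.1 (p3 j)
    obtain ⟨n, hn⟩ : ∃ n : ℝ, n = 2 * (p.1 : ℝ) := ⟨_, rfl⟩
    have hn1 : (X : ℝ) / 4 ≤ n := by
      have h1 : X ≤ 8 * p.1 := by omega
      have h2 : (X : ℝ) ≤ 8 * p.1 := by exact_mod_cast h1
      rw [hn]; linarith
    have hn2 : n ≤ X / 2 := by
      have h1 : 4 * p.1 ≤ X := by omega
      have h2 : 4 * (p.1 : ℝ) ≤ X := by exact_mod_cast h1
      rw [hn]; linarith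
    have hn0 : 0 < n := by linarith
    have hT1 : ((Tp q p).1 : ℝ) = n := by
      rw [hn]; simp only [Tp]; push_cast; rfl
    obtain ⟨E, hE⟩ : ∃ E : ℝ, E = 4 * (L : ℝ) + 2 := ⟨_, rfl⟩
    have hE0 : 0 < E := by rw [hE]; positivity
    have hTb : ∀ j, |((Tp q p).2 j : ℝ) + n * (Qp q).coeff j| ≤ E := by
      intro j
      rw [hn, hE]
      exact Tp_bd q L p p3' j
    have hEX : E ≤ 6 * δ * X := by rw [hE]; linarith
    -- the values at the test points
    have hval : ∀ y : ℝ, |y| ≤ 2 → |aeval y (Pol q (Tp q p)) + n * (Qp q).eval y| ≤ κ * X / 8 := by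
      intro y hy
      have h1 : aeval y (Pol q (Tp q p)) + n * (Qp q).eval y =
          y ^ (q + 2) + ∑ j : Fin (q + 1), (((Tp q p).2 j : ℝ) + n * (Qp q).coeff j) * y ^ (j : ℕ) := by
        rw [Pol_eval, Qp_eval, hT1]
        have : ∑ j : Fin (q + 1), (((Tp q p).2 j : ℝ) + n * (Qp q).coeff j) * y ^ (j : ℕ) =
            ∑ j : Fin (q + 1), ((Tp q p).2 j : ℝ) * y ^ (j : ℕ) +
              n * ∑ j : Fin (q + 1), (Qp q).coeff j * y ^ (j : ℕ) := by
          rw [mul_sum, ← sum_add_distrib]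
          refine sum_congr rfl fun j _ => ?_
          ring
        rw [this]
        ring
      rw [h1]
      refine (abs_add_le _ _).trans ?_
      have h2 : |y ^ (q + 2)| ≤ 2 ^ (q + 2) := by
        rw [abs_pow]
        exact pow_le_pow_left₀ (abs_nonneg _) hy _
      have h3 : |∑ j : Fin (q + 1), (((Tp q p).2 j : ℝ) + n * (Qp q).coeff j) * y ^ (j : ℕ)| ≤
          E * 2 ^ (q + 1) := by
        refine (abs_sum_le_sum_abs _ _).trans ?_
        have h4 : ∀ j ∈ (univ : Finset (Fin (q + 1))),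
            |(((Tp q p).2 j : ℝ) + n * (Qp q).coeff j) * y ^ (j : ℕ)| ≤ E * 2 ^ (j : ℕ) := by
          intro j _
          rw [abs_mul, abs_pow]
          exact mul_le_mul (hTb j) (pow_le_pow_left₀ (abs_nonneg _) hy _) (by positivity) hE0.le
        refine (sum_le_sum h4).trans ?_
        rw [← mul_sum, Fin.sum_univ_eq_sum_range (fun j => (2 : ℝ) ^ j) (q + 1), geom_sum_eq (by norm_num)]
        apply mul_le_mul_of_nonneg_left _ hE0.le
        norm_num
      have h5 : (2 : ℝ) ^ (q + 2) = 2 * 2 ^ (q + 1) := by rw [pow_succ]; ring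
      have h6 : κ = δ * (2 ^ (q + 2) * 32) := by rw [hδ]; field_simp
      have h7 : (0 : ℝ) < 2 ^ (q + 1) := by positivity
      calc |y ^ (q + 2)| + |∑ j : Fin (q + 1), (((Tp q p).2 j : ℝ) + n * (Qp q).coeff j) * y ^ (j : ℕ)| ≤
            2 ^ (q + 2) + E * 2 ^ (q + 1) := add_le_add h2 h3
        _ = 2 ^ (q + 1) * (4 * L + 4) := by rw [h5, hE]; ring
        _ ≤ 2 ^ (q + 1) * (8 * (δ * X)) := by gcongr; linarith
        _ = κ * X / 8 := by rw [h6, h5]; ring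
    have hxi2 : ∀ i ≤ q + 1, |xi q i| ≤ 2 := by
      intro i hi
      have h1 : xi q 0 ≤ xi q i := (xi_mono q).monotone (Nat.zero_le _)
      have h2 : xi q i ≤ xi q (q + 1) := (xi_mono q).monotone hi
      have h3 : xi q 0 = -2 := by unfold xi; simp
      have h4 : xi q (q + 1) = 2 := by
        unfold xi
        have : (q : ℝ) + 1 ≠ 0 := by positivity
        push_cast
        field_simp
        ring
      rw [h3] at h1
      rw [h4] at h2
      exact abs_le.2 ⟨h1, h2⟩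
    have hsg : ∀ i ≤ q + 1, (-1 : ℝ) ^ (q + 1 - i) * aeval (xi q i) (Pol q (Tp q p)) < 0 := by
      intro i hi
      have h1 := hval (xi q i) (hxi2 i hi)
      have h2 := hκ i hi
      obtain ⟨σ, hσ⟩ : ∃ σ : ℝ, σ = (-1 : ℝ) ^ (q + 1 - i) := ⟨_, rfl⟩
      rw [← hσ] at h2 ⊢
      have hσ1 : |σ| = 1 := by rw [hσ, abs_pow]; simp
      have h3 : |σ * (aeval (xi q i) (Pol q (Tp q p)) + n * (Qp q).eval (xi q i))| ≤ κ * X / 8 := by
        rw [abs_mul, hσ1, one_mul]; exact h1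
      have h4 := (abs_le.1 h3).2
      have h5 : κ * (X / 4) ≤ n * (σ * (Qp q).eval (xi q i)) := by
        calc κ * (X / 4) ≤ (σ * (Qp q).eval (xi q i)) * n :=
              mul_le_mul h2 hn1 (by positivity) (hκ0.le.trans h2)
          _ = _ := by ring
      have h6 : 0 < κ * X := by positivity
      have h7 : σ * (aeval (xi q i) (Pol q (Tp q p)) + n * (Qp q).eval (xi q i)) =
          σ * aeval (xi q i) (Pol q (Tp q p)) + n * (σ * (Qp q).eval (xi q i)) := by ring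
      rw [h7] at h4
      linarith
    obtain ⟨τ, g1, g2, g3, g4⟩ := exists_salem (Tp q p) (by simp only [Tp]; exact dvd_mul_right _ _) (by
        intro j
        simp only [Tp]
        split_ifs
        · exact dvd_add (dvd_mul_of_dvd_left (by norm_num) _) (dvd_refl _)
        · rw [add_zero]; exact dvd_mul_of_dvd_left (by norm_num) _) (by
        simp only [Tp, if_true]
        omega) (xi q) (xi_lt q) (by unfold xi; simp) (by
        unfold xi
        have : (q : ℝ) + 1 ≠ 0 := by positivity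
        push_cast
        field_simp
        ring) (by
        intro i hi
        have h1 := hsg i (by omega)
        have h2 := hsg (i + 1) (by omega)
        have h3 : q + 1 - i = (q + 1 - (i + 1)) + 1 := by omega
        rw [h3, pow_succ] at h1
        obtain ⟨σ, hσ⟩ : ∃ σ : ℝ, σ = (-1 : ℝ) ^ (q + 1 - (i + 1)) := ⟨_, rfl⟩
        rw [← hσ] at h1 h2
        have hσ1 : σ * σ = 1 := by rw [hσ, ← mul_pow]; norm_num
        have h4 := mul_pos_of_neg_of_neg h1 h2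
        have h5 : (σ * -1 * aeval (xi q i) (Pol q (Tp q p))) * (σ * aeval (xi q (i + 1)) (Pol q (Tp q p))) =
            -(aeval (xi q i) (Pol q (Tp q p)) * aeval (xi q (i + 1)) (Pol q (Tp q p))) := by
          linear_combination (-(aeval (xi q i) (Pol q (Tp q p)) * aeval (xi q (i + 1)) (Pol q (Tp q p)))) * hσ1
        rw [h5] at h4
        linarith) (X : ℝ) (by linarith) (by
        have h1 := hsg (q + 1) le_rfl
        rw [Nat.sub_self, pow_zero, one_mul] at h1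
        have h2 : xi q (q + 1) = 2 := by
          unfold xi
          have : (q : ℝ) + 1 ≠ 0 := by positivity
          push_cast
          field_simp
          ring
        rw [h2] at h1
        apply mul_neg_of_neg_of_pos h1
        rw [Pol_eval, hT1]
        have h3 : -((q + 1) * ((B + 6 * δ) * X * (X : ℝ) ^ q)) ≤
            ∑ j : Fin (q + 1), ((Tp q p).2 j : ℝ) * (X : ℝ) ^ (j : ℕ) := by
          have h4 : ∀ j ∈ (univ : Finset (Fin (q + 1))), -((B + 6 * δ) * X * (X : ℝ) ^ q) ≤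
              ((Tp q p).2 j : ℝ) * (X : ℝ) ^ (j : ℕ) := by
            intro j _
            have h5 := (abs_le.1 (hTb j)).1
            have h6 : n * (Qp q).coeff j ≤ n * B := by
              apply mul_le_mul_of_nonneg_left _ hn0.le
              exact (le_abs_self _).trans (hBj j)
            have h7 : n * B ≤ X * B := by
              apply mul_le_mul_of_nonneg_right _ hB0
              linarith
            have h8 : -((B + 6 * δ) * X) ≤ ((Tp q p).2 j : ℝ) := by nlinarith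
            have h9 : (X : ℝ) ^ (j : ℕ) ≤ (X : ℝ) ^ q := pow_le_pow_right₀ (by linarith) (by have := j.2; omega)
            have h10 : (0 : ℝ) < (X : ℝ) ^ (j : ℕ) := by positivity
            have h11 : 0 ≤ (B + 6 * δ) * X := by positivity
            calc -((B + 6 * δ) * X * (X : ℝ) ^ q) ≤ -((B + 6 * δ) * X * (X : ℝ) ^ (j : ℕ)) := by
                  have := mul_le_mul_of_nonneg_left h9 h11
                  linarith
              _ = -((B + 6 * δ) * X) * (X : ℝ) ^ (j : ℕ) := by ring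
              _ ≤ _ := mul_le_mul_of_nonneg_right h8 h10.le
          have h5 := sum_le_sum h4
          rw [sum_const, card_univ, Fintype.card_fin, nsmul_eq_mul] at h5
          push_cast at h5
          linarith
        have h4 : (X : ℝ) ^ (q + 2) = X * (X : ℝ) ^ (q + 1) := by rw [pow_succ]; ring
        have h5 : (X : ℝ) ^ (q + 1) = X * (X : ℝ) ^ q := by rw [pow_succ]; ring
        have h6 : (0 : ℝ) < (X : ℝ) ^ (q + 1) := by positivity
        have h7 : n * (X : ℝ) ^ (q + 1) ≤ X / 2 * (X : ℝ) ^ (q + 1) := by gcongr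
        have h8 : (q + 1) * ((B + 6 * δ) * X * (X : ℝ) ^ q) = ((q + 1) * (B + 6 * δ)) * (X : ℝ) ^ (q + 1) := by
          rw [h5]; ring
        rw [h8] at h3
        have h9 : ((q + 1) * (B + 6 * δ)) * (X : ℝ) ^ (q + 1) < X / 2 * (X : ℝ) ^ (q + 1) := by
          apply mul_lt_mul_of_pos_right _ h6
          linarith
        rw [h4]
        linarith)
    exact ⟨τ, ⟨g1, g2, g3⟩, g4⟩
  choose! F hF1 hF2 using hex
  have hinj : Set.InjOn F (S : Set (ℕ × (Fin (q + 1) → ℕ))) := by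
    intro t ht t' ht' h
    have h1 : Pol q (Tp q t) = Pol q (Tp q t') := by rw [← hF2 t ht, ← hF2 t' ht', h]
    obtain ⟨e1, e2⟩ := Pol_coeff q (Tp q t)
    obtain ⟨e1', e2'⟩ := Pol_coeff q (Tp q t')
    apply Tp_inj q
    apply Prod.ext
    · rw [h1] at e1
      omega
    · funext j
      rw [← e2 j, ← e2' j, h1]
  have hcard : S.card ≤ (Sal (2 * (q + 2)) X).ncard := by
    rw [← card_image_of_injOn hinj, ← Set.ncard_coe_finset]
    apply Set.ncard_le_ncard _ (Sal_finite q X)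
    rw [Finset.coe_image]
    rintro _ ⟨t, ht, rfl⟩
    exact hF1 t ht
  have hScard : S.card = (X / 4 + 1 - (X / 8 + 1)) * L ^ (q + 1) := by
    rw [hS, card_product, Nat.card_Icc, Fintype.card_piFinset]
    simp
  have h7 : (X : ℝ) / 16 ≤ ((X / 4 + 1 - (X / 8 + 1) : ℕ) : ℝ) := by
    have h8 : X ≤ 16 * (X / 4 + 1 - (X / 8 + 1)) := by omega
    have h9 : (X : ℝ) ≤ 16 * ((X / 4 + 1 - (X / 8 + 1) : ℕ) : ℝ) := by exact_mod_cast h8
    linarith
  calc 1 / 16 * (δ / 2) ^ (q + 1) * (X : ℝ) ^ (q + 2) =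
        ((X : ℝ) / 16) * (δ / 2 * X) ^ (q + 1) := by
          rw [mul_pow, pow_succ (X : ℝ) (q + 1)]; ring
    _ ≤ ((X / 4 + 1 - (X / 8 + 1) : ℕ) : ℝ) * (L : ℝ) ^ (q + 1) := by gcongr
    _ = (S.card : ℝ) := by rw [hScard]; push_cast; rfl
    _ ≤ _ := by exact_mod_cast hcard

/-- **Almost all Salem numbers** -/
theorem salem : ∃ γ : ℝ, 0 < γ ∧ ∀ q : ℕ, ∀ ε : ℝ, 0 < ε → ∃ X₀ : ℕ, ∀ X : ℕ, X₀ ≤ X →
    (({τ | τ ∈ Sal (2 * (q + 2)) X ∧ ∃ b u v : ℕ, 2 ≤ b ∧ (Real.log X) ^ (1 - γ) ≤ (v : ℝ) - u ∧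
      v * Real.log b ≤ (Real.log X) ^ (1 + γ) ∧ ¬ Pool.Agent.H17.GS.EquiW τ b u v ε}.ncard : ℕ) : ℝ) ≤
      Real.exp (-√(Real.log X)) * ((Sal (2 * (q + 2)) X).ncard : ℝ) := by
  obtain ⟨γ, hγ0, hbad⟩ := salem_bad
  refine ⟨γ, hγ0, ?_⟩
  intro q ε hε
  obtain ⟨X₁, hX₁⟩ := hbad q ε hε
  obtain ⟨c, hc, X₃, hX₃⟩ := Sal_many q
  have hlog : Tendsto (fun N : ℕ => Real.log N) atTop atTop :=
    Real.tendsto_log_atTop.comp tendsto_natCast_atTop_atTop
  have ev2 : ∀ᶠ y : ℝ in atTop, (2 : ℝ) * y ^ (1 / 2 : ℝ) ≤ y ^ (11 / 20 : ℝ) :=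
    Pool.Agent.H17.GS.ev_pow _ _ _ (by norm_num)
  have ev3 : ∀ᶠ y : ℝ in atTop, (-Real.log c) * y ^ (0 : ℝ) ≤ y ^ (1 / 2 : ℝ) :=
    Pool.Agent.H17.GS.ev_pow _ _ _ (by norm_num)
  obtain ⟨X₄, hX₄⟩ := eventually_atTop.1 (hlog.eventually (ev2.and ev3))
  refine ⟨max (max X₁ X₃) X₄, ?_⟩
  intro X hX
  obtain ⟨q2, q3⟩ := hX₄ X ((le_max_right _ _).trans hX)
  rw [Real.rpow_zero, mul_one] at q3
  have hle := hX₁ X (((le_max_left _ _).trans (le_max_left _ _)).trans hX)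
  have hmany := hX₃ X (((le_max_right _ _).trans (le_max_left _ _)).trans hX)
  refine hle.trans ?_
  have hsqrt : √(Real.log X) = (Real.log X) ^ (1 / 2 : ℝ) := Real.sqrt_eq_rpow _
  have h11 : Real.exp (-(Real.log X) ^ (11 / 20 : ℝ)) ≤ Real.exp (-√(Real.log X)) * c := by
    rw [hsqrt, ← Real.exp_log hc, ← Real.exp_add]
    apply Real.exp_le_exp.2
    linarith
  calc (X : ℝ) ^ (q + 2) * Real.exp (-(Real.log X) ^ (11 / 20 : ℝ)) ≤
        (X : ℝ) ^ (q + 2) * (Real.exp (-√(Real.log X)) * c) := by gcongr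
    _ = Real.exp (-√(Real.log X)) * (c * (X : ℝ) ^ (q + 2)) := by ring
    _ ≤ _ := by gcongr

end Pool.Agent.H17.Sal
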